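import Pool.Agent.Helper46.WP.Par

/-!
# Lemma W in dimension `g + k`: assembly
-/

set_option autoImplicit false

namespace Pool.Agent.Helper46.WP

open Finset Matrix Pool.Agent.Helper69.RK Pool.Agent.Helper61.GL Pool.Agent.Helper46.WF
open Pool.Agent.Helper92.W (fl srp DL K1)

noncomputable section

variable {Ω : Type} [Fintype Ω]

theorem CfgP.mono {g k n s : ℕ} {η η' c : ℝ} {μ : Ω → ℝ} {z : Ω → ℝ} {X Y : Ω → Fin (g + k) → ℝ}
    (h : CfgP g k n s η c μ z X Y) (hη : η ≤ η') : CfgP g k n s η' c μ z X Y := by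
  have hn : (0 : ℝ) ≤ n := Nat.cast_nonneg n
  have hηn : η * n ≤ η' * n := mul_le_mul_of_nonneg_right hη hn
  refine ⟨h.nn, h.ms, h.zb, h.xb, h.yb, h.ang, h.i1.trans (by linarith), h.i2.trans (by linarith),
    h.i3.trans (by linarith), le_trans (by linarith) h.tx, le_trans (by linarith) h.ty,
    (Pw_mono μ h.nn ?_).trans (h.un.trans hη)⟩
  rintro ω _ ⟨a, b, hab, hb, h1⟩
  exact ⟨a, b, hab, hb, by linarith⟩

/-- nine rare events do not cover the space -/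
theorem nine {μ : Ω → ℝ} (hμ : ∀ ω, 0 ≤ μ ω) (hm : mass μ = 1) (B : Fin 9 → Ω → Prop)
    (h : ∀ i, Pw μ (B i) ≤ 1 / 50) : ∃ ω, μ ω ≠ 0 ∧ ∀ i, ¬ B i ω := by
  have h1 := Pw_exi μ hμ B
  have h2 : ∑ i, Pw μ (B i) ≤ 9 / 50 := by
    refine (sum_le_sum fun i _ => h i).trans ?_
    rw [sum_const, card_univ, Fintype.card_fin, nsmul_eq_mul]
    norm_num
  have h3 := Pw_compl μ hm (fun ω => ∃ i, B i ω)
  obtain ⟨ω, h4, h5⟩ := Pw_exists μ (A := fun ω => ¬ ∃ i, B i ω) (by linarith)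
  exact ⟨ω, h4, fun i hi => h5 ⟨i, hi⟩⟩

open Classical in
theorem st_ASMP : ST_ASMP := by
  intro hDEN hPRE hSLO hCLO hREF g k c κ hc hc1 hκ hκ1
  rcases Nat.eq_zero_or_pos (g + k) with hp0 | hp
  · -- dimension zero
    refine ⟨1, one_pos, 0, ?_⟩
    intro n s _ _ Ω _ μ z X Y hC
    have hms : ∑ ω, μ ω = 1 := hC.ms
    have hex : ∃ ω ∈ (univ : Finset Ω), μ ω ≠ 0 := by
      by_contra h5
      push Not at h5
      rw [Finset.sum_eq_zero h5] at hms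
      exact zero_ne_one hms
    obtain ⟨ω, -, h0⟩ := hex
    have h1 := hC.ang ω h0
    have h2 : dp (X ω) (Y ω) = 0 := by
      unfold dp
      refine Finset.sum_eq_zero fun i _ => ?_
      exact absurd i.2 (by omega)
    rw [h2, abs_zero] at h1
    norm_num at h1
  obtain ⟨θ, τ, σ, ε, r, w, θd, R1, R, hN, hθ, hτθ, hθd, hθd2, hw, hε, hcnt, hεw, hsmall, hbig1, hR1θ⟩ :=
    params g k hp c hc hc1
  have hP1 := hN.P1
  obtain ⟨P, hP⟩ : ∃ P : ℝ, P = ((g + k : ℕ) : ℝ) := ⟨_, rfl⟩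
  have hτ := hN.hτ
  have hσ := hN.hσ
  have hR1 : 1 ≤ R1 := hN.hR1
  have hR1' : (1 : ℝ) ≤ R1 := by exact_mod_cast hR1
  -- the constant `n / T`
  obtain ⟨C, hCk⟩ : ∃ C : ℝ, C = 16 / (1 - κ) := ⟨_, rfl⟩
  have hκ' : 0 < 1 - κ := by linarith
  have hC0 : 0 < C := by rw [hCk]; positivity
  have hC1 : (1 - κ) * C = 16 := by rw [hCk]; field_simp
  obtain ⟨e2, he2⟩ : ∃ e2 : ℝ, e2 = c * θ ^ 2 / 8 := ⟨_, rfl⟩
  have he20 : 0 < e2 := by rw [he2]; positivity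
  obtain ⟨e3, he3⟩ : ∃ e3 : ℝ, e3 = c / 8 := ⟨_, rfl⟩
  have he30 : 0 < e3 := by rw [he3]; positivity
  obtain ⟨e, he⟩ : ∃ e : ℝ, e = e2 * σ ^ 2 / (100 * C ^ 2) := ⟨_, rfl⟩
  have he0 : 0 < e := by rw [he]; positivity
  have he1 : 100 * C ^ 2 * e = e2 * σ ^ 2 := by rw [he]; field_simp
  obtain ⟨e', he'⟩ : ∃ e' : ℝ, e' = e3 * τ / (100 * C) := ⟨_, rfl⟩
  have he'0 : 0 < e' := by rw [he']; positivity
  have he'1 : 100 * C * e' = e3 * τ := by rw [he']; field_simp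
  obtain ⟨ε1, hε1⟩ : ∃ ε1 : ℝ, ε1 = min (1 / 100) (θ / C) := ⟨_, rfl⟩
  have hε10 : 0 < ε1 := by rw [hε1]; exact lt_min (by norm_num) (by positivity)
  have hε1a : ε1 ≤ 1 / 100 := by rw [hε1]; exact min_le_left _ _
  have hε1b : ε1 * C ≤ θ := by
    have : ε1 ≤ θ / C := by rw [hε1]; exact min_le_right _ _
    rwa [le_div_iff₀ hC0] at this
  -- modules
  obtain ⟨Ra, hRa⟩ := hCLO g k c e hc hc1 he0 R1
  obtain ⟨Rb, hRb⟩ := hCLO g k c e hc hc1 he0 R
  obtain ⟨Rc, hRc⟩ := hREF g k c e' hc hc1 he'0 R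
  obtain ⟨R', hR'⟩ : ∃ R' : ℕ, R' = Ra + Rb + Rc + 1 := ⟨_, rfl⟩
  obtain ⟨ηa, hηa, na, hna⟩ := hRa R' (by omega)
  obtain ⟨ηb, hηb, nb, hnb⟩ := hRb R' (by omega)
  obtain ⟨ηc, hηc, nc, hnc⟩ := hRc R' (by omega)
  obtain ⟨ηd, hηd, nd, hnd⟩ := hDEN c ε1 hc hc1 hε10 R' (by omega)
  obtain ⟨ηx, hηx, nx, hnx⟩ := hPRE (g + k) g ε1 hε10 R1 hR1
  obtain ⟨ηy, hηy, ny, hny⟩ := hPRE (g + k) k ε1 hε10 R1 hR1
  obtain ⟨η, hη⟩ : ∃ η : ℝ, η = min (min (min ηa ηb) (min ηc ηd)) (min ηx ηy) := ⟨_, rfl⟩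
  have hη0 : 0 < η := by
    rw [hη]
    exact lt_min (lt_min (lt_min hηa hηb) (lt_min hηc hηd)) (lt_min hηx hηy)
  have l1 : η ≤ ηa := by rw [hη]; exact (min_le_left _ _).trans ((min_le_left _ _).trans (min_le_left _ _))
  have l2 : η ≤ ηb := by rw [hη]; exact (min_le_left _ _).trans ((min_le_left _ _).trans (min_le_right _ _))
  have l3 : η ≤ ηc := by rw [hη]; exact (min_le_left _ _).trans ((min_le_right _ _).trans (min_le_left _ _))
  have l4 : η ≤ ηd := by rw [hη]; exact (min_le_left _ _).trans ((min_le_right _ _).trans (min_le_right _ _))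
  have l5 : η ≤ ηx := by rw [hη]; exact (min_le_right _ _).trans (min_le_left _ _)
  have l6 : η ≤ ηy := by rw [hη]; exact (min_le_right _ _).trans (min_le_right _ _)
  obtain ⟨M2, hM2⟩ : ∃ M2 : ℝ, M2 = 100 * P ^ 2 / θ ^ 3 + 1 / θ + 1 := ⟨_, rfl⟩
  obtain ⟨N1, hN1⟩ := exists_nat_gt (2 * ((R : ℝ) + R1 + 10) / (1 - κ) + C * M2)
  refine ⟨η, hη0, na + nb + nc + nd + nx + ny + N1, ?_⟩
  intro n s hn hs Ω _ μ z X Y hC
  have hμ := hC.nn
  have hm := hC.ms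
  -- the number `T`
  obtain ⟨T, hT⟩ : ∃ T : ℕ, T = (n - (s + R + R1 + 2)) / 8 := ⟨_, rfl⟩
  have hnN : (N1 : ℝ) ≤ n := by
    have : N1 ≤ n := by omega
    exact_mod_cast this
  have hPsq : (0 : ℝ) ≤ 100 * P ^ 2 / θ ^ 3 := by positivity
  have hθinv : 0 < 1 / θ := by positivity
  have hM20 : 0 < M2 := by rw [hM2]; linarith
  have hnR : 2 * ((R : ℝ) + R1 + 10) ≤ (1 - κ) * n := by
    have h1 : 2 * ((R : ℝ) + R1 + 10) / (1 - κ) ≤ n := by
      have := mul_pos hC0 hM20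
      linarith
    rw [div_le_iff₀ hκ'] at h1
    linarith
  have hnM : C * M2 ≤ n := by
    have : 0 ≤ 2 * ((R : ℝ) + R1 + 10) / (1 - κ) := by positivity
    linarith
  have hn0 : (0 : ℝ) < n := lt_of_lt_of_le (mul_pos hC0 hM20) hnM
  have hTn : (n : ℝ) ≤ C * T := by
    have h1 : n < 8 * (T + 1) + (s + R + R1 + 2) := by omega
    have h2 : (n : ℝ) < 8 * ((T : ℝ) + 1) + (s + R + R1 + 2) := by exact_mod_cast h1
    have h3 : (1 - κ) * n ≤ 16 * T := by linarith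
    have h4 : (1 - κ) * n ≤ (1 - κ) * (C * T) := by
      rw [← mul_assoc, hC1]
      exact h3
    exact le_of_mul_le_mul_left h4 hκ'
  have hTM : M2 ≤ T := by
    have := hnM.trans hTn
    exact le_of_mul_le_mul_left this hC0
  have hT1' : (1 : ℝ) ≤ T := by rw [hM2] at hTM; linarith
  have hT1 : 1 ≤ T := by exact_mod_cast hT1'
  have hθT : 1 ≤ θ * T := by
    have : 1 / θ ≤ T := by rw [hM2] at hTM; linarith
    rw [div_le_iff₀ hθ] at this
    linarith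
  have hPT : 100 * P ^ 2 ≤ θ ^ 3 * T := by
    have : 100 * P ^ 2 / θ ^ 3 ≤ T := by rw [hM2] at hTM; linarith
    rw [div_le_iff₀ (by positivity)] at this
    linarith
  have h8 : 8 * T ≤ n - (s + R + R1 + 2) := by omega
  have h8R1 : 5 * T + s + (R1 + 1) ≤ n := by omega
  have h8R : 5 * T + s + (R + 1) ≤ n := by omega
  have h8n : 8 * T ≤ n := by omega
  have hεT : ε1 * n ≤ θ * T := by
    calc ε1 * n ≤ ε1 * (C * T) := mul_le_mul_of_nonneg_left hTn hε10.le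
      _ = ε1 * C * T := by ring
      _ ≤ θ * T := mul_le_mul_of_nonneg_right hε1b (by linarith)
  have hn2 : (n : ℝ) ^ 2 ≤ C ^ 2 * (T : ℝ) ^ 2 := by
    rw [← mul_pow]
    exact pow_le_pow_left₀ hn0.le hTn 2
  -- data from the modules
  have cl1 := hna n s (by omega) Ω μ z X Y (hC.mono l1)
  have cl2 := hnb n s (by omega) Ω μ z X Y (hC.mono l2)
  obtain ⟨rf1, rf2⟩ := hnc n s (by omega) Ω μ z X Y (hC.mono l3)
  have dn := hnd n (by omega) Ω μ z hμ hm hC.zb (hC.mono l4).un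
  have px := hnx n (by omega) Ω μ X (Fin.castAdd k) hμ hm hC.xb (hC.mono l5).tx
  have py := hny n (by omega) Ω μ Y (Fin.natAdd g) hμ hm hC.yb (hC.mono l6).ty
  -- probabilities
  have pb : ∀ ρ : ℕ, 5 * T + s + (ρ + 1) ≤ n → (∑ ω, μ ω * ∑ l ∈ range (n + 1), ∑ j ∈ range (n + 1),
      (if l + j + s + (ρ + 1) ≤ n ∧ DL μ z c R' (l + j + s + (ρ + 1)) ω then slP μ Y X j l ρ ω else 0) ≤
        e * (n : ℝ) ^ 2) → Pw μ (fun ω => e2 * (T : ℝ) ^ 2 <
        ∑ N ∈ (range (5 * T)).filter (fun N => DL μ z c R' (N + s + (ρ + 1)) ω),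
        (((range (N + 1)).filter (fun l => σ ^ 2 < slP μ Y X (N - l) l ρ ω)).card : ℝ)) ≤ 1 / 50 := by
    intro ρ hρ h
    have hb : 0 < e2 * (T : ℝ) ^ 2 := by positivity
    refine (clo_bad μ hμ z X Y ρ T hσ hb hρ h).trans ?_
    rw [div_le_iff₀ (by positivity)]
    have h1 : e * (n : ℝ) ^ 2 ≤ e * (C ^ 2 * (T : ℝ) ^ 2) := mul_le_mul_of_nonneg_left hn2 he0.le
    have h2 : e * (C ^ 2 * (T : ℝ) ^ 2) = (e2 * σ ^ 2) * (T : ℝ) ^ 2 / 100 := by
      rw [← he1]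
      ring
    have h3 : 0 ≤ (e2 * σ ^ 2) * (T : ℝ) ^ 2 := by positivity
    linarith
  have hbr : 0 < e3 * (T : ℝ) := by positivity
  have pr : e' * (n : ℝ) / (e3 * T * τ) ≤ 1 / 50 := by
    rw [div_le_iff₀ (by positivity)]
    have h1 : e' * (n : ℝ) ≤ e' * (C * T) := mul_le_mul_of_nonneg_left hTn he'0.le
    have h2 : e' * (C * T) = (e3 * τ) * T / 100 := by
      rw [← he'1]
      ring
    have h3 : 0 ≤ (e3 * τ) * (T : ℝ) := by positivity
    linarith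
  have ps : Pw μ (fun ω => θ * T < (((range (4 * T)).filter (fun l =>
      θ * R1 < |eLP μ X R1 l ω - eLP μ X R1 (l + 1) ω|)).card : ℝ)) ≤ 1 / 50 := by
    refine (slo_bad hSLO μ hμ hm X R1 T hθ hR1 hT1).trans ?_
    rw [div_le_iff₀ (by positivity)]
    rw [← hP] at hR1θ ⊢
    push_cast
    have h1 : P ^ 2 * (R1 : ℝ) ^ 2 ≤ θ ^ 3 * T * (R1 : ℝ) ^ 2 / 100 := by
      have := mul_le_mul_of_nonneg_right hPT (sq_nonneg (R1 : ℝ))
      linarith
    have h2 : 2 * P ^ 2 * (R1 : ℝ) * (4 * T) ≤ θ ^ 3 * T * (R1 : ℝ) ^ 2 / 100 := by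
      have := mul_le_mul_of_nonneg_right hR1θ (show (0 : ℝ) ≤ R1 * T by positivity)
      nlinarith
    have h3 : 1 / 50 * (θ * T * (θ * R1) ^ 2) = θ ^ 3 * T * (R1 : ℝ) ^ 2 / 100 +
        θ ^ 3 * T * (R1 : ℝ) ^ 2 / 100 := by ring
    linarith
  have pi : Pw μ (fun ω => θ * T < (((range (4 * T)).filter (fun l =>
      StrP (lwP μ X l ω) (fun ω' => frP l (X ω'))
        (hatP k (lwP μ X l ω) (fun ω' => frP l (X ω')) r (τ ^ 2)) r (τ ^ 2) ∧
      ¬ StrP (lwP μ X (l + 1) ω) (fun ω' => frP (l + 1) (X ω'))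
        (hatP k (lwP μ X l ω) (fun ω' => frP l (X ω')) r (τ ^ 2)) (2 * r) τ)).card : ℝ)) ≤ 1 / 50 := by
    refine (inh_bad μ hμ hm X k T (r := r) hτ (by positivity)).trans ?_
    rw [div_le_iff₀ (by positivity)]
    push_cast
    nlinarith
  -- the path
  obtain ⟨ω, h0, hω⟩ := nine hμ hm ![
    (fun ω => ∃ a b : ℕ, b ≤ n ∧ (a : ℝ) + ε1 * n ≤ b ∧
      ((((Ico a b).filter (fun t => DL μ z c R' t ω)).card : ℝ) < c / 4 * ((b : ℝ) - a))),
    (fun ω => ∃ N : ℕ, N ≤ n ∧ ∑ l ∈ range N, eLP μ X R1 l ω < g * R1 * N - ε1 * n),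
    (fun ω => ∃ N : ℕ, N ≤ n ∧ ∑ l ∈ range N, eLP μ Y R1 l ω < k * R1 * N - ε1 * n),
    (fun ω => θ * T < (((range (4 * T)).filter (fun l =>
      θ * R1 < |eLP μ X R1 l ω - eLP μ X R1 (l + 1) ω|)).card : ℝ)),
    (fun ω => e2 * (T : ℝ) ^ 2 <
        ∑ N ∈ (range (5 * T)).filter (fun N => DL μ z c R' (N + s + (R1 + 1)) ω),
        (((range (N + 1)).filter (fun l => σ ^ 2 < slP μ Y X (N - l) l R1 ω)).card : ℝ)),
    (fun ω => e2 * (T : ℝ) ^ 2 <
        ∑ N ∈ (range (5 * T)).filter (fun N => DL μ z c R' (N + s + (R + 1)) ω),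
        (((range (N + 1)).filter (fun l => σ ^ 2 < slP μ Y X (N - l) l R ω)).card : ℝ)),
    (fun ω => e3 * T < (((range (5 * T)).filter (fun j => DL μ z c R' (j + s + (R + 1)) ω ∧
      τ < nlP μ Y j R (X ω) ω)).card : ℝ)),
    (fun ω => e3 * T < (((range (5 * T)).filter (fun l => DL μ z c R' (l + s + (R + 1)) ω ∧
      τ < nlP μ X l R (Y ω) ω)).card : ℝ)),
    (fun ω => θ * T < (((range (4 * T)).filter (fun l =>
      StrP (lwP μ X l ω) (fun ω' => frP l (X ω'))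
        (hatP k (lwP μ X l ω) (fun ω' => frP l (X ω')) r (τ ^ 2)) r (τ ^ 2) ∧
      ¬ StrP (lwP μ X (l + 1) ω) (fun ω' => frP (l + 1) (X ω'))
        (hatP k (lwP μ X l ω) (fun ω' => frP l (X ω')) r (τ ^ 2)) (2 * r) τ)).card : ℝ))] (by
    intro i
    fin_cases i
    · exact dn.trans (by linarith)
    · exact px.trans (by linarith)
    · exact py.trans (by linarith)
    · exact ps
    · exact pb R1 h8R1 cl1
    · exact pb R h8R cl2
    · exact (ref_bad μ hμ z X Y R T hτ hbr h8R rf1).trans pr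
    · exact (ref_bad μ hμ z Y X R T hτ hbr h8R rf2).trans pr
    · exact pi)
  have w0 := hω 0
  have w1 := hω 1
  have w2 := hω 2
  have w3 := hω 3
  have w4 := hω 4
  have w5 := hω 5
  have w6 := hω 6
  have w7 := hω 7
  have w8 := hω 8
  have hpre : ∀ (a : ℕ) (E : ℕ → ℝ), (¬ ∃ N : ℕ, N ≤ n ∧ ∑ l ∈ range N, E l < a * R1 * N - ε1 * n) →
      ∀ N : ℕ, N ≤ 8 * T → (a : ℝ) * R1 * N - θ * R1 * T ≤ ∑ l ∈ range N, E l := by
    intro a E hE N hN8
    by_contra hcon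
    rw [not_le] at hcon
    apply hE
    refine ⟨N, hN8.trans h8n, lt_of_lt_of_le hcon ?_⟩
    have : θ * T ≤ θ * R1 * T := by
      have h1 : 0 ≤ θ * T := by positivity
      nlinarith
    linarith
  have hpth : PthP g k T s R1 R R' c θ τ σ e2 e3 r μ z X Y ω := by
    refine ⟨h0, ?_, hpre g _ w1, hpre k _ w2, not_lt.1 w3, ?_, not_lt.1 w6, not_lt.1 w7, not_lt.1 w8⟩
    · intro ρ hρ a b _ hab hb hθab
      by_contra hcon
      rw [not_le] at hcon
      apply w0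
      have hρn : 5 * T + s + (ρ + 1) ≤ n := by
        rcases hρ with rfl | rfl
        · exact h8R1
        · exact h8R
      refine ⟨a + s + (ρ + 1), b + s + (ρ + 1), by omega, ?_, ?_⟩
      · push_cast
        linarith
      · have e1 : (Ico (a + s + (ρ + 1)) (b + s + (ρ + 1))).filter (fun t => DL μ z c R' t ω) =
            ((Ico a b).filter (fun N => DL μ z c R' (N + s + (ρ + 1)) ω)).image
              (fun N => N + s + (ρ + 1)) := by
          ext t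
          simp only [mem_filter, mem_Ico, mem_image]
          constructor
          · rintro ⟨⟨t1, t2⟩, t3⟩
            refine ⟨t - (s + (ρ + 1)), ⟨⟨by omega, by omega⟩, ?_⟩, by omega⟩
            have : t - (s + (ρ + 1)) + s + (ρ + 1) = t := by omega
            rw [this]
            exact t3
          · rintro ⟨N, ⟨⟨t1, t2⟩, t3⟩, rfl⟩
            exact ⟨⟨by omega, by omega⟩, t3⟩
        rw [e1, card_image_of_injective _ (by
          intro x y hxy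
          have : x + s + (ρ + 1) = y + s + (ρ + 1) := hxy
          omega)]
        refine lt_of_lt_of_le hcon (le_of_eq ?_)
        push_cast
        ring
    · intro ρ hρ
      rcases hρ with rfl | rfl
      · exact not_lt.1 w4
      · exact not_lt.1 w5
  exact pthP_false hμ hpth hN (hC.xb ω) (hC.yb ω) (hC.ang ω h0) hc hθ hT1 hθT
    (by rw [he2]; linarith) hbig1 θd hθd hθd2 w hw ε hε (by rw [he3]; exact hcnt) hεw hsmall

end

end Pool.Agent.Helper46.WP
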