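import Pool.Agent.Helper46.WP.DetP
import Pool.Agent.Helper92.W.Det2

/-!
# Lemma W in dimension `g + k`: no path has all the properties

Generalises Pool/Agent/Helper92/W/Det2.lean.
-/

set_option autoImplicit false

namespace Pool.Agent.Helper46.WP

open Finset Matrix Pool.Agent.Helper69.RK Pool.Agent.Helper61.GL Pool.Agent.Helper46.WF
open Pool.Agent.Helper92.W (fl srp DL dense_tot K1 card_reflect card_restrict)
open Pool.Agent.Helper97.WF (num_core' dir_core)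

noncomputable section

/-- truncated distance of matrices -/
def dm {p : ℕ} (A B : Matrix (Fin p) (Fin p) ℝ) : ℝ :=
  min 1 (dist (fun i j => A i j : Fin p → Fin p → ℝ) (fun i j => B i j))

section dm
variable {p : ℕ}

theorem dm_nonneg (A B : Matrix (Fin p) (Fin p) ℝ) : 0 ≤ dm A B := le_min zero_le_one dist_nonneg

theorem dm_le (A B : Matrix (Fin p) (Fin p) ℝ) : dm A B ≤ 1 := min_le_left _ _

theorem dm_self (A : Matrix (Fin p) (Fin p) ℝ) : dm A A = 0 := by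
  unfold dm
  rw [dist_self]
  exact min_eq_right zero_le_one

theorem dm_symm (A B : Matrix (Fin p) (Fin p) ℝ) : dm A B = dm B A := by
  unfold dm
  rw [dist_comm]

theorem dm_tri (A B C : Matrix (Fin p) (Fin p) ℝ) : dm A C ≤ dm A B + dm B C := by
  unfold dm
  have h := dist_triangle (fun i j => A i j : Fin p → Fin p → ℝ) (fun i j => B i j) (fun i j => C i j)
  have h1 : (0 : ℝ) ≤ dist (fun i j => A i j : Fin p → Fin p → ℝ) (fun i j => B i j) := dist_nonneg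
  have h2 : (0 : ℝ) ≤ dist (fun i j => B i j : Fin p → Fin p → ℝ) (fun i j => C i j) := dist_nonneg
  rcases min_choice 1 (dist (fun i j => A i j : Fin p → Fin p → ℝ) (fun i j => B i j)) with h3 | h3
  · rw [h3]
    have := min_le_left 1 (dist (fun i j => A i j : Fin p → Fin p → ℝ) (fun i j => C i j))
    have := le_min zero_le_one h2
    linarith
  · rw [h3]
    rcases min_choice 1 (dist (fun i j => B i j : Fin p → Fin p → ℝ) (fun i j => C i j)) with h4 | h4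
    · rw [h4]
      have := min_le_left 1 (dist (fun i j => A i j : Fin p → Fin p → ℝ) (fun i j => C i j))
      linarith
    · rw [h4]
      exact (min_le_right _ _).trans h

theorem dm_le_of {A B : Matrix (Fin p) (Fin p) ℝ} {w : ℝ} (hw : 0 ≤ w)
    (h : ∀ i j, |A i j - B i j| ≤ w) : dm A B ≤ w := by
  refine (min_le_right _ _).trans ?_
  rw [dist_pi_le_iff hw]
  intro i
  rw [dist_pi_le_iff hw]
  intro j
  rw [Real.dist_eq]
  exact h i j

theorem le_of_dm {A B : Matrix (Fin p) (Fin p) ℝ} {w : ℝ} (h : dm A B ≤ w) (hw : w < 1) (i j : Fin p) :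
    |A i j - B i j| ≤ w := by
  unfold dm at h
  have h1 : dist (fun i j => A i j : Fin p → Fin p → ℝ) (fun i j => B i j) ≤ w := by
    rcases min_choice 1 (dist (fun i j => A i j : Fin p → Fin p → ℝ) (fun i j => B i j)) with h3 | h3
    · rw [h3] at h; linarith
    · rw [h3] at h; exact h
  have h2 := (dist_le_pi_dist (fun i j => A i j : Fin p → Fin p → ℝ) (fun i j => B i j) i).trans h1
  have h3 := (dist_le_pi_dist (fun j => A i j : Fin p → ℝ) (fun j => B i j) j).trans h2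
  rwa [Real.dist_eq] at h3

end dm

variable {Ω : Type} [Fintype Ω] {g k : ℕ}

/-- good pairs of levels -/
def GGP (g k R1 R : ℕ) (σ : ℝ) (μ : Ω → ℝ) (X Y : Ω → Fin (g + k) → ℝ) (ω : Ω) (l j : ℕ) : Prop :=
  slP μ Y X j l R ω ≤ σ ^ 2 ∧ ((g : ℝ) - 1 / 16) * (R1 : ℝ) ≤ eLP μ X R1 l ω ∧
    ((k : ℝ) - 1 / 16) * (R1 : ℝ) ≤ eLP μ Y R1 j ω

open Classical in
/-- the projection (of rank `g`, to the flat of `X`) of a pair of levels -/
def thP (g k : ℕ) (τ r : ℝ) (μ : Ω → ℝ) (X Y : Ω → Fin (g + k) → ℝ) (ω : Ω) (l j : ℕ) :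
    Matrix (Fin (g + k)) (Fin (g + k)) ℝ :=
  if h : ∃ Q, Prj (g + k) g Q ∧ StrP (lwP μ Y j ω) (fun ω' => frP j (Y ω')) Q r (τ ^ 2) ∧
      StrP (lwP μ X l ω) (fun ω' => frP l (X ω')) (1 - Q) r (τ ^ 2) then h.choose else 0

/-- numerical conditions -/
structure NumP (g k R1 R : ℕ) (τ σ r : ℝ) : Prop where
  hp : 1 ≤ g + k
  hR1 : 0 < R1
  hτ : 0 < τ
  hτ2 : 16 * ((g + k : ℕ) : ℝ) * τ ≤ 1
  hσ : 0 < σ
  hσ2 : ((g + k : ℕ) : ℝ) * σ ≤ τ ^ 2
  hr : 0 < r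
  hrr : cG (g + k) * 2 ^ ((g + k) * R1) * (1 / 2) ^ R ≤ r
  hbig : 1 + (g + k : ℕ) * Real.logb 2 (6 * (g + k : ℕ)) < (1 / 2) * (R1 : ℝ)

variable {R1 R : ℕ} {τ σ r : ℝ}

theorem NumP.P1 (h : NumP g k R1 R τ σ r) : (1 : ℝ) ≤ ((g + k : ℕ) : ℝ) := by exact_mod_cast h.hp

theorem NumP.τ1 (h : NumP g k R1 R τ σ r) : τ ≤ 1 / 16 := by
  have h1 := h.P1
  have h2 := h.hτ2
  have h3 := h.hτ
  have h4 : 16 * τ ≤ 16 * ((g + k : ℕ) : ℝ) * τ := by nlinarith
  linarith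

theorem NumP.τsq (h : NumP g k R1 R τ σ r) : τ ^ 2 ≤ τ := by
  have h1 := h.τ1
  have h2 := h.hτ
  nlinarith

/-- entropy condition of the pair-of-cells lemmas -/
theorem NumP.ent (h : NumP g k R1 R τ σ r) {a e H : ℝ} (he : e ≤ τ)
    (hH : (a - 1 / 16) * (R1 : ℝ) ≤ H) :
    1 + ((g + k : ℕ) * Real.logb 2 (6 * (g + k : ℕ)) + (a - 1) * R1) + 2 * e * ((g + k : ℕ) * R1) < H := by
  have h1 := h.hbig
  have h2 := h.hτ2
  have h3 : (0 : ℝ) ≤ ((g + k : ℕ) : ℝ) * R1 := by positivity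
  have h4 : 2 * e * (((g + k : ℕ) : ℝ) * R1) ≤ 2 * τ * (((g + k : ℕ) : ℝ) * R1) :=
    mul_le_mul_of_nonneg_right (by linarith) h3
  have h5 : 2 * τ * (((g + k : ℕ) : ℝ) * R1) ≤ 1 / 8 * R1 := by
    have h6 : (0 : ℝ) ≤ R1 := Nat.cast_nonneg _
    have h7 : 2 * τ * (((g + k : ℕ) : ℝ) * R1) = 1 / 8 * (16 * ((g + k : ℕ) : ℝ) * τ) * R1 := by ring
    rw [h7]
    nlinarith
  have h8 : (a - 1 / 16) * (R1 : ℝ) = (a - 1) * R1 + 15 / 16 * R1 := by ring
  have hR : (0 : ℝ) < R1 := by exact_mod_cast h.hR1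
  linarith

theorem thP_spec (hN : NumP g k R1 R τ σ r) {μ : Ω → ℝ} (hμ : ∀ ω, 0 ≤ μ ω)
    {X Y : Ω → Fin (g + k) → ℝ} {ω : Ω} (hs : μ ω ≠ 0) {l j : ℕ} (h : GGP g k R1 R σ μ X Y ω l j) :
    Prj (g + k) g (thP g k τ r μ X Y ω l j) ∧
    StrP (lwP μ Y j ω) (fun ω' => frP j (Y ω')) (thP g k τ r μ X Y ω l j) r (τ ^ 2) ∧
      StrP (lwP μ X l ω) (fun ω' => frP l (X ω')) (1 - thP g k τ r μ X Y ω l j) r (τ ^ 2) := by
  obtain ⟨h1, h2, h3⟩ := h
  have hP1 := hN.P1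
  have hτ := hN.hτ
  have hτ1 := hN.τ1
  have hτsq := hN.τsq
  have hσ := hN.hσ
  have hσ2 := hN.hσ2
  have hσle : σ ≤ ((g + k : ℕ) : ℝ) * σ := by nlinarith
  have hex : ∃ Q, Prj (g + k) g Q ∧ StrP (lwP μ Y j ω) (fun ω' => frP j (Y ω')) Q r (τ ^ 2) ∧
      StrP (lwP μ X l ω) (fun ω' => frP l (X ω')) (1 - Q) r (τ ^ 2) := by
    have e1 : Hh (lwP μ Y j ω) (fun ω' => cel R1 (frP j (Y ω'))) = eLP μ Y R1 j ω := rfl
    have e2 : Hh (lwP μ X l ω) (fun ω' => cel R1 (frP l (X ω'))) = eLP μ X R1 l ω := rfl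
    have hPR : (0 : ℝ) ≤ ((g + k : ℕ) : ℝ) * R1 := by positivity
    obtain ⟨Q, hQ, ha, hb⟩ := dirP (g := k) (k := g) (Nat.add_comm k g) hN.hp
      (lwP μ Y j ω) (lwP_nonneg hμ Y j ω) (lwP_sum hμ Y j hs) (fun ω' => frP j (Y ω'))
      (fun ω' _ => frP_mem _ _) (lwP μ X l ω) (lwP_nonneg hμ X l ω) (lwP_sum hμ X l hs)
      (fun ω' => frP l (X ω')) (fun ω' _ => frP_mem _ _) R1 R hσ (by linarith) h1
      (by
        rw [e1]
        refine lt_of_le_of_lt ?_ (hN.ent (e := τ) le_rfl h3)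
        have : ((g + k : ℕ) : ℝ) * σ * (((g + k : ℕ) : ℝ) * R1) ≤ 2 * τ * (((g + k : ℕ) : ℝ) * R1) :=
          mul_le_mul_of_nonneg_right (by linarith) hPR
        linarith)
      (by
        rw [e2]
        refine lt_of_le_of_lt ?_ (hN.ent (e := τ) le_rfl h2)
        have : σ * (((g + k : ℕ) : ℝ) * R1) ≤ 2 * τ * (((g + k : ℕ) : ℝ) * R1) :=
          mul_le_mul_of_nonneg_right (by linarith) hPR
        linarith)
    exact ⟨Q, hQ, StrP_mono (lwP_nonneg hμ Y j ω) hN.hrr hσ2 ha,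
      StrP_mono (lwP_nonneg hμ X l ω) hN.hrr (hσle.trans hσ2) hb⟩
  unfold thP
  rw [dif_pos hex]
  exact hex.choose_spec

/-- the common constant of uniqueness -/
def cU (g k R1 : ℕ) : ℝ := 8 * ((g + k : ℕ) : ℝ) * gam (g + k) R1 ^ (g + k)

theorem cU_nonneg (g k R1 : ℕ) : 0 ≤ cU g k R1 := by
  unfold cU
  have := gam_one (g + k) R1
  positivity

theorem cU_ge (g k R1 m : ℕ) (hm : m ≤ g + k) {r : ℝ} (hr : 0 ≤ r) :
    8 * ((g + k : ℕ) : ℝ) * gam (g + k) R1 ^ m * r ≤ cU g k R1 * r := by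
  unfold cU
  have h1 := pow_le_pow_right₀ (gam_one (g + k) R1) hm
  refine mul_le_mul_of_nonneg_right (mul_le_mul_of_nonneg_left h1 (by positivity)) hr

theorem uniX (hN : NumP g k R1 R τ σ r) {μ : Ω → ℝ} (hμ : ∀ ω, 0 ≤ μ ω)
    {X : Ω → Fin (g + k) → ℝ} {ω : Ω} (hs : μ ω ≠ 0) {l : ℕ}
    (h : ((g : ℝ) - 1 / 16) * (R1 : ℝ) ≤ eLP μ X R1 l ω)
    {Q Q' : Matrix (Fin (g + k)) (Fin (g + k)) ℝ} (hQ : Prj (g + k) k Q) (hQ' : Prj (g + k) k Q')
    {q : ℝ} (hq : 0 ≤ q) (h1 : StrP (lwP μ X l ω) (fun ω' => frP l (X ω')) Q q τ)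
    (h2 : StrP (lwP μ X l ω) (fun ω' => frP l (X ω')) Q' q τ) (i j : Fin (g + k)) :
    |Q i j - Q' i j| ≤ cU g k R1 * q := by
  refine (uniP (g := g) (k := k) rfl hN.hp (lwP μ X l ω) (lwP_nonneg hμ X l ω) (lwP_sum hμ X l hs)
    (fun ω' => frP l (X ω')) (fun ω' _ => frP_mem _ _) R1 (e := τ) (by linarith [hN.τ1]) ?_ hQ hQ' hq
    h1 h2 i j).trans (cU_ge g k R1 g (by omega) hq)
  exact hN.ent le_rfl h

theorem uniY (hN : NumP g k R1 R τ σ r) {μ : Ω → ℝ} (hμ : ∀ ω, 0 ≤ μ ω)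
    {Y : Ω → Fin (g + k) → ℝ} {ω : Ω} (hs : μ ω ≠ 0) {l : ℕ}
    (h : ((k : ℝ) - 1 / 16) * (R1 : ℝ) ≤ eLP μ Y R1 l ω)
    {Q Q' : Matrix (Fin (g + k)) (Fin (g + k)) ℝ} (hQ : Prj (g + k) g Q) (hQ' : Prj (g + k) g Q')
    {q : ℝ} (hq : 0 ≤ q) (h1 : StrP (lwP μ Y l ω) (fun ω' => frP l (Y ω')) Q q τ)
    (h2 : StrP (lwP μ Y l ω) (fun ω' => frP l (Y ω')) Q' q τ) (i j : Fin (g + k)) :
    |Q i j - Q' i j| ≤ cU g k R1 * q := by
  refine (uniP (g := k) (k := g) (Nat.add_comm k g) hN.hp (lwP μ Y l ω) (lwP_nonneg hμ Y l ω)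
    (lwP_sum hμ Y l hs) (fun ω' => frP l (Y ω')) (fun ω' _ => frP_mem _ _) R1 (e := τ)
    (by linarith [hN.τ1]) ?_ hQ hQ' hq h1 h2 i j).trans (cU_ge g k R1 k (by omega) hq)
  exact hN.ent le_rfl h

theorem compl_sub {p : ℕ} (A B : Matrix (Fin p) (Fin p) ℝ) (i j : Fin p) :
    |(1 - A) i j - (1 - B) i j| = |A i j - B i j| := by
  rw [Matrix.sub_apply, Matrix.sub_apply, abs_sub_comm]
  congr 1
  ring

theorem one_sub_one_sub {p : ℕ} (A : Matrix (Fin p) (Fin p) ℝ) : 1 - (1 - A) = A := by abel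

theorem dp_mulVec_symm {p m : ℕ} {Q : Matrix (Fin p) (Fin p) ℝ} (hQ : Prj p m Q) (x y : Fin p → ℝ) :
    dp (Q *ᵥ x) y = dp x (Q *ᵥ y) := by
  show (Q *ᵥ x) ⬝ᵥ y = x ⬝ᵥ (Q *ᵥ y)
  rw [Matrix.dotProduct_mulVec x, ← Matrix.mulVec_transpose, hQ.sym]

open Classical in
theorem pthP_false {T s R' : ℕ} {c θ e2 e3 : ℝ} {μ : Ω → ℝ} {z : Ω → ℝ}
    {X Y : Ω → Fin (g + k) → ℝ} {ω : Ω} (hμ : ∀ ω, 0 ≤ μ ω)
    (h : PthP g k T s R1 R R' c θ τ σ e2 e3 r μ z X Y ω)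
    (hN : NumP g k R1 R τ σ r) (hX : ∀ i, |X ω i| ≤ 32) (hY : ∀ i, |Y ω i| ≤ 32)
    (hang : 1 / 8 ≤ |dp (X ω) (Y ω)|)
    (hc : 0 < c) (hθ : 0 < θ) (hT : 1 ≤ T) (h1 : 1 ≤ θ * T) (he2 : 2 * e2 ≤ c / 4 * θ ^ 2)
    (hbig1 : cS (g + k) + ((g + k : ℕ) + 1) * σ * (((g + k : ℕ) : ℝ) * R1) ≤ θ * R1)
    (θd : ℝ) (hθd : θd = (32 * (K1 c * ((g + k : ℕ) : ℝ)) + 1) * θ) (hθd2 : θd ≤ 1 / 2) (w : ℝ)
    (hw : w = 3 * (cU g k R1 * r)) (ε : ℝ) (hε : 0 < ε)
    (hcnt : 3 * θd + ((264 / (c / 8) + 3) * (10 * w + 3 * θd) + 2 * θd) / ε + e3 < 3 * (c / 4))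
    (hεw : 2 * (ε + w) < 1)
    (hsmall : (g + k : ℕ) * (32 * (2 * (2 * ((g + k : ℕ) : ℝ) * gam (g + k) R1 ^ (g + k) * (1 / 2) ^ R +
        4 * ((g + k : ℕ) : ℝ) ^ 2 * gam (g + k) R1 ^ (g + k) * 32 * r) +
        (g + k : ℕ) * (2 * (ε + w) * 32))) < 1 / 8) : False := by
  have hs := h.sup
  have hT' : (1 : ℝ) ≤ T := by exact_mod_cast hT
  have hK1 : 0 < K1 c := by unfold K1; positivity
  have hP1 := hN.P1
  have hr := hN.hr
  have hτ1 := hN.τ1
  have hτsq := hN.τsq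
  have hcU := cU_nonneg g k R1
  have hw0 : 0 ≤ w := by rw [hw]; positivity
  have hθθd : θ ≤ θd := by
    rw [hθd]
    nlinarith [mul_pos (mul_pos hK1 (lt_of_lt_of_le one_pos hP1)) hθ]
  have hθ2 : θ ≤ 1 / 2 := hθθd.trans hθd2
  -- entropies
  obtain ⟨a1, a2⟩ := ent_closeP hμ h hN.hp hc hθ hθ2 hT h1 hN.hσ he2 hbig1
  have b1 := ent_cardP (K := K1 c * θ) hN.hR1 (E := fun l => eLP μ X R1 l ω) a1
  have b2 := ent_cardP (K := K1 c * θ) hN.hR1 (E := fun l => eLP μ Y R1 l ω) a2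
  -- the directions
  obtain ⟨x0, c1, c2⟩ := dir_core (dm (p := g + k)) dm_nonneg dm_le dm_self dm_symm dm_tri
    (c / 8) (by positivity) T θd w hw0 hθd2 (h1.trans (mul_le_mul_of_nonneg_right hθθd (by linarith)))
    (GGP g k R1 R σ μ X Y ω) (thP g k τ r μ X Y ω) (BBP T s R R' c θ σ μ z X Y ω)
    (by
      intro l j j' hG hG'
      obtain ⟨q1, _, s1⟩ := thP_spec hN hμ hs hG
      obtain ⟨q2, _, s2⟩ := thP_spec hN hμ hs hG'
      refine dm_le_of hw0 fun i i' => ?_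
      have hkg : k + g = g + k := Nat.add_comm k g
      have := uniX hN hμ hs hG.2.1 (q1.compl hkg) (q2.compl hkg) hr.le
        (StrP_mono (lwP_nonneg hμ X l ω) le_rfl hτsq s1) (StrP_mono (lwP_nonneg hμ X l ω) le_rfl hτsq s2)
        i i'
      rw [compl_sub] at this
      rw [hw]
      have h3 : 0 ≤ cU g k R1 * r := by positivity
      linarith)
    (by
      intro l l' j hG hG'
      obtain ⟨q1, s1, _⟩ := thP_spec hN hμ hs hG
      obtain ⟨q2, s2, _⟩ := thP_spec hN hμ hs hG'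
      refine dm_le_of hw0 fun i i' => ?_
      have := uniY hN hμ hs hG.2.2 q1 q2 hr.le
        (StrP_mono (lwP_nonneg hμ Y j ω) le_rfl hτsq s1) (StrP_mono (lwP_nonneg hμ Y j ω) le_rfl hτsq s2)
        i i'
      rw [hw]
      have h3 : 0 ≤ cU g k R1 * r := by positivity
      linarith)
    (by
      refine le_trans ?_ (h.inh.trans (mul_le_mul_of_nonneg_right hθθd (by linarith)))
      refine Nat.cast_le.2 (card_le_card ?_)
      intro l hl
      rw [mem_filter] at hl ⊢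
      refine ⟨hl.1, ?_⟩
      by_contra hcon
      apply hl.2
      intro j j' hG hG'
      have hkg : k + g = g + k := Nat.add_comm k g
      obtain ⟨q1, _, s1⟩ := thP_spec hN hμ hs hG
      obtain ⟨q2, _, s2⟩ := thP_spec hN hμ hs hG'
      obtain ⟨hu, s3⟩ := hatP_spec (q1.compl hkg) s1
      have s4 : StrP (lwP μ X (l + 1) ω) (fun ω' => frP (l + 1) (X ω'))
          (hatP k (lwP μ X l ω) (fun ω' => frP l (X ω')) r (τ ^ 2)) (2 * r) τ := by
        by_contra h5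
        exact hcon ⟨s3, h5⟩
      refine dm_le_of hw0 fun i i' => ?_
      have d1 := uniX hN hμ hs hG.2.1 (q1.compl hkg) hu hr.le
        (StrP_mono (lwP_nonneg hμ X l ω) le_rfl hτsq s1) (StrP_mono (lwP_nonneg hμ X l ω) le_rfl hτsq s3)
        i i'
      have d2 := uniX hN hμ hs hG'.2.1 hu (q2.compl hkg) (q := 2 * r) (by linarith) s4
        (StrP_mono (lwP_nonneg hμ X (l + 1) ω) (by linarith) hτsq s2) i i'
      have d3 := abs_add_le
        ((1 - thP g k τ r μ X Y ω l j) i i' - hatP k (lwP μ X l ω) (fun ω' => frP l (X ω')) r (τ ^ 2) i i')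
        (hatP k (lwP μ X l ω) (fun ω' => frP l (X ω')) r (τ ^ 2) i i' -
          (1 - thP g k τ r μ X Y ω (l + 1) j') i i')
      rw [sub_add_sub_cancel, compl_sub] at d3
      rw [hw]
      linarith)
    (by
      intro N hN1 hN2 hN3
      unfold BBP at hN1
      have f1 := (mem_filter.1 hN1).2
      have f2 := card_restrict T N hN3 (fun l => eLP μ X R1 l ω < ((g : ℝ) - 1 / 16) * (R1 : ℝ))
      have f3 := card_reflect T N hN3 (fun l => eLP μ Y R1 l ω < ((k : ℝ) - 1 / 16) * (R1 : ℝ))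
      have hsub : (range (N + 1)).filter (fun l => ¬ GGP g k R1 R σ μ X Y ω l (N - l)) ⊆
          ((range (N + 1)).filter (fun l => σ ^ 2 < slP μ Y X (N - l) l R ω)) ∪
          (((range (N + 1)).filter (fun l => eLP μ X R1 l ω < ((g : ℝ) - 1 / 16) * (R1 : ℝ))) ∪
          ((range (N + 1)).filter (fun l => eLP μ Y R1 (N - l) ω < ((k : ℝ) - 1 / 16) * (R1 : ℝ)))) := by
        intro l hl
        rw [mem_filter] at hl
        simp only [mem_union, mem_filter]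
        by_contra hcon
        push Not at hcon
        obtain ⟨k1, k2, k3⟩ := hcon
        exact hl.2 ⟨k1 hl.1, k2 hl.1, k3 hl.1⟩
      have f6 := (card_le_card hsub).trans ((card_union_le _ _).trans (Nat.add_le_add_left
        (card_union_le _ _) _))
      have f7 : (((range (N + 1)).filter (fun l => ¬ GGP g k R1 R σ μ X Y ω l (N - l))).card : ℝ) ≤
          (((range (N + 1)).filter (fun l => σ ^ 2 < slP μ Y X (N - l) l R ω)).card : ℝ) +
          ((((range (5 * T)).filter (fun l => eLP μ X R1 l ω < ((g : ℝ) - 1 / 16) * (R1 : ℝ))).card : ℝ) +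
          (((range (5 * T)).filter (fun l => eLP μ Y R1 l ω < ((k : ℝ) - 1 / 16) * (R1 : ℝ))).card : ℝ)) := by
        have g2 : (((range (N + 1)).filter (fun l => ¬ GGP g k R1 R σ μ X Y ω l (N - l))).card : ℝ) ≤
            ((range (N + 1)).filter (fun l => σ ^ 2 < slP μ Y X (N - l) l R ω)).card +
            ((((range (N + 1)).filter (fun l => eLP μ X R1 l ω < ((g : ℝ) - 1 / 16) * (R1 : ℝ))).card : ℝ) +
            (((range (N + 1)).filter (fun l => eLP μ Y R1 (N - l) ω < ((k : ℝ) - 1 / 16) * (R1 : ℝ))).card : ℝ)) := by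
          exact_mod_cast f6
        have g3 : (((range (N + 1)).filter (fun l => eLP μ X R1 l ω < ((g : ℝ) - 1 / 16) * (R1 : ℝ))).card : ℝ) ≤
            (((range (5 * T)).filter (fun l => eLP μ X R1 l ω < ((g : ℝ) - 1 / 16) * (R1 : ℝ))).card : ℝ) := by
          exact_mod_cast f2
        have g4 : (((range (N + 1)).filter (fun l => eLP μ Y R1 (N - l) ω < ((k : ℝ) - 1 / 16) * (R1 : ℝ))).card : ℝ) ≤
            (((range (5 * T)).filter (fun l => eLP μ Y R1 l ω < ((k : ℝ) - 1 / 16) * (R1 : ℝ))).card : ℝ) := by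
          exact_mod_cast f3
        linarith
      refine f7.trans ?_
      rw [hθd]
      have e : (32 * (K1 c * ((g + k : ℕ) : ℝ)) + 1) * θ * T =
          θ * T + 2 * (16 * (K1 c * θ * ((g + k : ℕ) : ℝ)) * T) := by ring
      rw [e]
      linarith)
    (fun a b ha hab hb hab2 => BBP_dense h hθ hT he2 (Or.inr rfl) a b ha hab hb
      ((mul_le_mul_of_nonneg_right hθθd (by linarith)).trans hab2)) ε hε
  -- END
  set K3 : ℝ := 3 * θd + ((264 / (c / 8) + 3) * (10 * w + 3 * θd) + 2 * θd) / ε with hK3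
  have hden := h.den R (Or.inr rfl) (2 * T) (5 * T) le_rfl (by omega) le_rfl (by push_cast; nlinarith)
  have sel : ∀ (P Q : ℕ → Prop), (∀ S : Finset ℕ, (∀ j ∈ S, j < 5 * T ∧ ¬ P j) → (S.card : ℝ) ≤ K3 * T) →
      (∀ S : Finset ℕ, (∀ j ∈ S, j < 5 * T ∧ DL μ z c R' (j + s + (R + 1)) ω ∧ ¬ Q j) →
        (S.card : ℝ) ≤ e3 * T) →
      ∃ j, DL μ z c R' (j + s + (R + 1)) ω ∧ P j ∧ Q j := by
    intro P Q hP hQ
    by_contra hcon
    push Not at hcon
    have hsub : (Ico (2 * T) (5 * T)).filter (fun N => DL μ z c R' (N + s + (R + 1)) ω) ⊆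
        ((range (5 * T)).filter (fun j => ¬ P j)) ∪
        ((range (5 * T)).filter (fun j => DL μ z c R' (j + s + (R + 1)) ω ∧ ¬ Q j)) := by
      intro j hj
      rw [mem_filter, mem_Ico] at hj
      rw [mem_union, mem_filter, mem_filter, mem_range]
      by_cases h2 : P j
      · exact Or.inr ⟨hj.1.2, hj.2, hcon j hj.2 h2⟩
      · exact Or.inl ⟨hj.1.2, h2⟩
    have h2 := (card_le_card hsub).trans (card_union_le _ _)
    have h3 : (((Ico (2 * T) (5 * T)).filter (fun N => DL μ z c R' (N + s + (R + 1)) ω)).card : ℝ) ≤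
        (((range (5 * T)).filter (fun j => ¬ P j)).card : ℝ) +
        (((range (5 * T)).filter (fun j => DL μ z c R' (j + s + (R + 1)) ω ∧ ¬ Q j)).card : ℝ) := by
      exact_mod_cast h2
    have h3a := hP ((range (5 * T)).filter (fun j => ¬ P j)) (fun j hj => by
      rw [mem_filter, mem_range] at hj
      exact hj)
    have h3b := hQ ((range (5 * T)).filter (fun j => DL μ z c R' (j + s + (R + 1)) ω ∧ ¬ Q j))
      (fun j hj => by
        rw [mem_filter, mem_range] at hj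
        exact hj)
    have h4 : c / 4 * (((5 * T : ℕ) : ℝ) - ((2 * T : ℕ) : ℝ)) = 3 * (c / 4) * T := by
      push_cast
      ring
    rw [h4] at hden
    have h5 : (K3 + e3) * T < 3 * (c / 4) * T := mul_lt_mul_of_pos_right hcnt (by linarith)
    linarith
  have hΓ1 := gam_one (g + k) R1
  -- the cells of `Y` and the vector `X`
  obtain ⟨j, _, ⟨⟨l, hl⟩, hj2⟩, hj3⟩ := sel
    (fun j => (∃ l, GGP g k R1 R σ μ X Y ω l j) ∧ ∀ l, GGP g k R1 R σ μ X Y ω l j →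
      dm (thP g k τ r μ X Y ω l j) x0 ≤ ε + w)
    (fun j => nlP μ Y j R (X ω) ω ≤ τ) (by
      intro S hS
      refine le_trans ?_ c2
      refine Nat.cast_le.2 (card_le_card ?_)
      intro j hj
      rw [mem_filter, mem_range]
      exact hS j hj)
    (by
      intro S hS
      refine le_trans ?_ h.refX
      refine Nat.cast_le.2 (card_le_card ?_)
      intro j hj
      rw [mem_filter, mem_range]
      exact ⟨(hS j hj).1, (hS j hj).2.1, not_le.1 (hS j hj).2.2⟩)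
  obtain ⟨l', _, ⟨⟨j', hl'⟩, hj2'⟩, hj3'⟩ := sel
    (fun l => (∃ j, GGP g k R1 R σ μ X Y ω l j) ∧ ∀ j, GGP g k R1 R σ μ X Y ω l j →
      dm (thP g k τ r μ X Y ω l j) x0 ≤ ε + w)
    (fun l => nlP μ X l R (Y ω) ω ≤ τ) (by
      intro S hS
      refine le_trans ?_ c1
      refine Nat.cast_le.2 (card_le_card ?_)
      intro j hj
      rw [mem_filter, mem_range]
      exact hS j hj)
    (by
      intro S hS
      refine le_trans ?_ h.refY
      refine Nat.cast_le.2 (card_le_card ?_)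
      intro j hj
      rw [mem_filter, mem_range]
      exact ⟨(hS j hj).1, (hS j hj).2.1, not_le.1 (hS j hj).2.2⟩)
  have d1 := hj2 l hl
  have d1' := hj2' j' hl'
  obtain ⟨q1, s1, _⟩ := thP_spec hN hμ hs hl
  obtain ⟨q2, _, s2⟩ := thP_spec hN hμ hs hl'
  set A : Matrix (Fin (g + k)) (Fin (g + k)) ℝ := thP g k τ r μ X Y ω l j with hA
  set B : Matrix (Fin (g + k)) (Fin (g + k)) ℝ := thP g k τ r μ X Y ω l' j' with hB
  have hAB : ∀ i i', |A i i' - B i i'| ≤ 2 * (ε + w) := by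
    intro i i'
    refine le_of_dm ?_ hεw i i'
    have := dm_tri A x0 B
    rw [dm_symm x0 B] at this
    linarith
  obtain ⟨S, hS⟩ : ∃ S : ℝ, S = 2 * ((g + k : ℕ) : ℝ) * gam (g + k) R1 ^ (g + k) * (1 / 2) ^ R +
      4 * ((g + k : ℕ) : ℝ) ^ 2 * gam (g + k) R1 ^ (g + k) * 32 * r := ⟨_, rfl⟩
  have hgamle : ∀ m : ℕ, m ≤ g + k → 2 * ((g + k : ℕ) : ℝ) * gam (g + k) R1 ^ m * (1 / 2) ^ R +
      4 * ((g + k : ℕ) : ℝ) ^ 2 * gam (g + k) R1 ^ m * 32 * r ≤ S := by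
    intro m hm
    rw [hS]
    have h2 := pow_le_pow_right₀ hΓ1 hm
    have h3 : (0 : ℝ) < (1 / 2) ^ R := by positivity
    refine add_le_add ?_ ?_
    · exact mul_le_mul_of_nonneg_right (mul_le_mul_of_nonneg_left h2 (by positivity)) h3.le
    · exact mul_le_mul_of_nonneg_right (mul_le_mul_of_nonneg_right
        (mul_le_mul_of_nonneg_left h2 (by positivity)) (by norm_num)) hr.le
  have hXA : ∀ i, |((1 - A) *ᵥ X ω) i| ≤ S := by
    intro i
    refine (endP (g := k) (k := g) (Nat.add_comm k g) hN.hp (lwP μ Y j ω) (lwP_nonneg hμ Y j ω)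
      (lwP_sum hμ Y j hs) (fun ω' => frP j (Y ω')) (fun ω' _ => frP_mem _ _) R1 (e := τ)
      (by linarith) (hN.ent le_rfl hl.2.2) q1 (M := 32) hr.le (by positivity) (by norm_num)
      (StrP_mono (lwP_nonneg hμ Y j ω) le_rfl hτsq s1) (X ω) hX hj3 i).trans (hgamle k (by omega))
  have hYB : ∀ i, |(B *ᵥ Y ω) i| ≤ S := by
    intro i
    have := endP (g := g) (k := k) rfl hN.hp (lwP μ X l' ω) (lwP_nonneg hμ X l' ω)
      (lwP_sum hμ X l' hs) (fun ω' => frP l' (X ω')) (fun ω' _ => frP_mem _ _) R1 (e := τ)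
      (by linarith) (hN.ent le_rfl hl'.2.1) (q2.compl (Nat.add_comm k g)) (M := 32) hr.le
      (by positivity) (by norm_num)
      (StrP_mono (lwP_nonneg hμ X l' ω) le_rfl hτsq s2) (Y ω) hY hj3' i
    rw [one_sub_one_sub] at this
    exact this.trans (hgamle g (by omega))
  -- conclusion
  have hS0 : 0 ≤ S := (abs_nonneg _).trans (hXA ⟨0, hN.hp⟩)
  have e1 : dp (X ω) (Y ω) = dp ((1 - A) *ᵥ X ω) (Y ω) + dp (X ω) ((A - B) *ᵥ Y ω) +
      dp (X ω) (B *ᵥ Y ω) := by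
    have h2 : dp (A *ᵥ X ω) (Y ω) = dp (X ω) ((A - B) *ᵥ Y ω) + dp (X ω) (B *ᵥ Y ω) := by
      rw [dp_mulVec_symm q1, ← dp_add_right, ← Matrix.add_mulVec, sub_add_cancel]
    have h3 : X ω = (1 - A) *ᵥ X ω + A *ᵥ X ω := by
      rw [← Matrix.add_mulVec, sub_add_cancel, Matrix.one_mulVec]
    conv_lhs => rw [h3]
    rw [dp_add_left, h2, add_assoc]
  have t1 := dp_abs_le ((1 - A) *ᵥ X ω) (Y ω) hXA hY hS0
  have t3 := dp_abs_le (X ω) (B *ᵥ Y ω) hX hYB (by norm_num)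
  have t2' : ∀ i, |((A - B) *ᵥ Y ω) i| ≤ (g + k : ℕ) * (2 * (ε + w) * 32) := by
    intro i
    exact mulVec_abs_le (by linarith) (fun i i' => by rw [Matrix.sub_apply]; exact hAB i i') (Y ω) hY i
  have t2 := dp_abs_le (X ω) ((A - B) *ᵥ Y ω) hX t2' (by norm_num)
  rw [e1] at hang
  have t4 := hang.trans (abs_add_le _ _)
  have t5 := abs_add_le (dp ((1 - A) *ᵥ X ω) (Y ω)) (dp (X ω) ((A - B) *ᵥ Y ω))
  rw [← hS] at hsmall
  have e2 : ((g + k : ℕ) : ℝ) * (32 * (2 * S + (g + k : ℕ) * (2 * (ε + w) * 32))) =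
      (g + k : ℕ) * (S * 32) + (g + k : ℕ) * (32 * ((g + k : ℕ) * (2 * (ε + w) * 32))) +
        (g + k : ℕ) * (32 * S) := by ring
  rw [e2] at hsmall
  linarith

end

end Pool.Agent.Helper46.WP
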