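import Pool.Agent.Helper46.WP.St
import Pool.Agent.Helper92.W.Det

/-!
# Lemma W in dimension `g + k`: properties of one path, local entropies

Generalises Pool/Agent/Helper92/W/{Path,Det}.lean.
-/

set_option autoImplicit false

namespace Pool.Agent.Helper46.WP

open Finset Matrix Pool.Agent.Helper69.RK Pool.Agent.Helper61.GL Pool.Agent.Helper46.WF
open Pool.Agent.Helper92.W (fl srp DL dense_tot K1 card_reflect card_restrict)
open Pool.Agent.Helper97.WF (num_core')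

noncomputable section

section basic

variable {Ω : Type} [Fintype Ω] {p : ℕ}

theorem lwP_nonneg {μ : Ω → ℝ} (hμ : ∀ ω, 0 ≤ μ ω) (X : Ω → Fin p → ℝ) (l : ℕ) (ω ω' : Ω) :
    0 ≤ lwP μ X l ω ω' := cw_nonneg μ _ hμ ω ω'

theorem lwP_sum {μ : Ω → ℝ} (hμ : ∀ ω, 0 ≤ μ ω) (X : Ω → Fin p → ℝ) (l : ℕ) {ω : Ω} (h : μ ω ≠ 0) :
    ∑ ω', lwP μ X l ω ω' = 1 := cw_sum μ _ hμ ω h

theorem eLP_nonneg {μ : Ω → ℝ} (hμ : ∀ ω, 0 ≤ μ ω) (X : Ω → Fin p → ℝ) (ρ l : ℕ) (ω : Ω) :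
    0 ≤ eLP μ X ρ l ω := Hh_nonneg _ (lwP_nonneg hμ X l ω) _

theorem eLP_le {μ : Ω → ℝ} (hμ : ∀ ω, 0 ≤ μ ω) (X : Ω → Fin p → ℝ) (ρ l : ℕ) {ω : Ω} (h : μ ω ≠ 0) :
    eLP μ X ρ l ω ≤ p * ρ := by
  have h1 := Hh_le (lwP μ X l ω) (lwP_nonneg hμ X l ω) (lwP_sum hμ X l h)
    (fun ω' => cel ρ (frP l (X ω'))) (allcP p ρ) (fun _ => 1 / 2 ^ (p * ρ)) (fun _ => by positivity)
    (fun _ _ => by positivity) (by
      rw [sum_const, nsmul_eq_mul, allcP_card]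
      rw [mul_one_div, div_self (by positivity)])
    (fun ω' _ => cel_memP (frP_mem l (X ω')))
  refine h1.trans (le_of_eq ?_)
  rw [← sum_mul, lwP_sum hμ X l h, one_mul, one_div, Real.logb_inv, logb_two_pow, neg_neg]
  push_cast
  ring

theorem slP_nonneg {μ : Ω → ℝ} (hμ : ∀ ω, 0 ≤ μ ω) (Y X : Ω → Fin p → ℝ) (j l ρ : ℕ) (ω : Ω) :
    0 ≤ slP μ Y X j l ρ ω := by
  unfold slP nasP
  exact sum_nonneg fun ω1 _ => mul_nonneg (lwP_nonneg hμ X l ω ω1) (sum_nonneg fun ω2 _ =>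
    mul_nonneg (lwP_nonneg hμ X l ω ω2) (naP_nonneg _ (lwP_nonneg hμ Y j ω) _ _ _))

theorem nlP_nonneg {μ : Ω → ℝ} (hμ : ∀ ω, 0 ≤ μ ω) (Y : Ω → Fin p → ℝ) (j ρ : ℕ) (U : Fin p → ℝ) (ω : Ω) :
    0 ≤ nlP μ Y j ρ U ω := naP_nonneg _ (lwP_nonneg hμ Y j ω) _ _ _

/-- a strip projection of rank `k`, if there is one -/
def hatP (k : ℕ) (w : Ω → ℝ) (V : Ω → Fin p → ℝ) (r e : ℝ) : Matrix (Fin p) (Fin p) ℝ :=
  open Classical in if h : ∃ Q, Prj p k Q ∧ StrP w V Q r e then h.choose else 0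

theorem hatP_spec {k : ℕ} {w : Ω → ℝ} {V : Ω → Fin p → ℝ} {r e : ℝ} {Q : Matrix (Fin p) (Fin p) ℝ}
    (h1 : Prj p k Q) (h2 : StrP w V Q r e) :
    Prj p k (hatP k w V r e) ∧ StrP w V (hatP k w V r e) r e := by
  have h : ∃ Q, Prj p k Q ∧ StrP w V Q r e := ⟨Q, h1, h2⟩
  unfold hatP
  rw [dif_pos h]
  exact h.choose_spec

theorem StrP_mono {w : Ω → ℝ} (hw : ∀ ω, 0 ≤ w ω) {V : Ω → Fin p → ℝ} {Q : Matrix (Fin p) (Fin p) ℝ}
    {r r' e e' : ℝ} (hr : r ≤ r') (he : e ≤ e') (h : StrP w V Q r e) : StrP w V Q r' e' := by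
  obtain ⟨c, hc⟩ := h
  refine ⟨c, le_trans (Pw_mono w hw fun ω _ h1 => ?_) (hc.trans he)⟩
  obtain ⟨i, hi⟩ := h1
  exact ⟨i, lt_of_le_of_lt hr hi⟩

end basic

/-! ### one path -/

open Classical in
/-- properties of one path -/
structure PthP (g k T s R1 R R' : ℕ) (c θ τ σ e2 e3 r : ℝ) {Ω : Type} [Fintype Ω] (μ : Ω → ℝ)
    (z : Ω → ℝ) (X Y : Ω → Fin (g + k) → ℝ) (ω : Ω) : Prop where
  sup : μ ω ≠ 0
  den : ∀ ρ, (ρ = R1 ∨ ρ = R) → ∀ a b : ℕ, 2 * T ≤ a → a ≤ b → b ≤ 5 * T → θ * T ≤ (b : ℝ) - a →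
    c / 4 * ((b : ℝ) - a) ≤ (((Ico a b).filter (fun N => DL μ z c R' (N + s + (ρ + 1)) ω)).card : ℝ)
  preX : ∀ N : ℕ, N ≤ 8 * T → (g : ℝ) * R1 * N - θ * R1 * T ≤ ∑ l ∈ range N, eLP μ X R1 l ω
  preY : ∀ N : ℕ, N ≤ 8 * T → (k : ℝ) * R1 * N - θ * R1 * T ≤ ∑ l ∈ range N, eLP μ Y R1 l ω
  slo : (((range (4 * T)).filter (fun l =>
    θ * R1 < |eLP μ X R1 l ω - eLP μ X R1 (l + 1) ω|)).card : ℝ) ≤ θ * T
  clo : ∀ ρ : ℕ, (ρ = R1 ∨ ρ = R) →
    ∑ N ∈ (range (5 * T)).filter (fun N => DL μ z c R' (N + s + (ρ + 1)) ω),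
      (((range (N + 1)).filter (fun l => σ ^ 2 < slP μ Y X (N - l) l ρ ω)).card : ℝ) ≤ e2 * (T : ℝ) ^ 2
  refX : (((range (5 * T)).filter (fun j => DL μ z c R' (j + s + (R + 1)) ω ∧
    τ < nlP μ Y j R (X ω) ω)).card : ℝ) ≤ e3 * T
  refY : (((range (5 * T)).filter (fun l => DL μ z c R' (l + s + (R + 1)) ω ∧
    τ < nlP μ X l R (Y ω) ω)).card : ℝ) ≤ e3 * T
  inh : (((range (4 * T)).filter (fun l =>
    StrP (lwP μ X l ω) (fun ω' => frP l (X ω'))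
      (hatP k (lwP μ X l ω) (fun ω' => frP l (X ω')) r (τ ^ 2)) r (τ ^ 2) ∧
    ¬ StrP (lwP μ X (l + 1) ω) (fun ω' => frP (l + 1) (X ω'))
      (hatP k (lwP μ X l ω) (fun ω' => frP l (X ω')) r (τ ^ 2)) (2 * r) τ)).card : ℝ) ≤ θ * T

variable {Ω : Type} [Fintype Ω] {g k : ℕ}

open Classical in
/-- the good antidiagonals for the window `ρ` -/
def BBP (T s ρ R' : ℕ) (c θ σ : ℝ) (μ : Ω → ℝ) (z : Ω → ℝ) (X Y : Ω → Fin (g + k) → ℝ) (ω : Ω) :
    Finset ℕ :=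
  ((range (5 * T)).filter (fun N => DL μ z c R' (N + s + (ρ + 1)) ω)).filter (fun N =>
    (((range (N + 1)).filter (fun l => σ ^ 2 < slP μ Y X (N - l) l ρ ω)).card : ℝ) ≤ θ * T)

theorem BBP_dense {T s R1 R R' ρ : ℕ} {c θ τ σ e2 e3 r : ℝ} {μ : Ω → ℝ} {z : Ω → ℝ}
    {X Y : Ω → Fin (g + k) → ℝ} {ω : Ω} (h : PthP g k T s R1 R R' c θ τ σ e2 e3 r μ z X Y ω)
    (hθ : 0 < θ) (hT : 1 ≤ T) (he2 : 2 * e2 ≤ c / 4 * θ ^ 2) (hρ : ρ = R1 ∨ ρ = R) :
    ∀ a b : ℕ, 2 * T ≤ a → a ≤ b → b ≤ 5 * T → θ * T ≤ (b : ℝ) - a →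
      c / 8 * ((b : ℝ) - a) ≤
        (((BBP T s ρ R' c θ σ μ z X Y ω).filter (fun N => a ≤ N ∧ N < b)).card : ℝ) := by
  classical
  intro a b ha hab hb hθab
  have h1 := dense_tot (c / 4) θ e2 hθ T hT he2
    ((range (5 * T)).filter (fun N => DL μ z c R' (N + s + (ρ + 1)) ω))
    (fun l j => σ ^ 2 < slP μ Y X j l ρ ω) (by
      intro a b ha hab hb hθab
      refine (h.den ρ hρ a b ha hab hb hθab).trans (le_of_eq ?_)
      congr 2
      ext N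
      simp only [mem_filter, mem_Ico, mem_range]
      constructor
      · rintro ⟨⟨h1, h2⟩, h3⟩
        exact ⟨⟨by omega, h3⟩, h1, h2⟩
      · rintro ⟨⟨_, h3⟩, h1, h2⟩
        exact ⟨⟨h1, h2⟩, h3⟩) (by
      refine le_trans (le_of_eq ?_) (h.clo ρ hρ)
      apply Finset.sum_congr
      · ext N
        simp only [mem_filter, mem_range]
        tauto
      · intro N _
        rfl) a b ha hab hb hθab
  have e : c / 4 / 2 = c / 8 := by ring
  rw [e] at h1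
  exact h1

/-- constant of the strip lemma -/
def cS (p : ℕ) : ℝ := 2 + Real.logb 2 (cP p * cP p * p.factorial)

/-- the local entropies are `g R1`, `k R1` -/
theorem ent_closeP {T s R1 R R' : ℕ} {c θ τ σ e2 e3 r : ℝ} {μ : Ω → ℝ} {z : Ω → ℝ}
    {X Y : Ω → Fin (g + k) → ℝ} {ω : Ω} (hμ : ∀ ω, 0 ≤ μ ω)
    (h : PthP g k T s R1 R R' c θ τ σ e2 e3 r μ z X Y ω) (hp : 1 ≤ g + k)
    (hc : 0 < c) (hθ : 0 < θ) (hθ2 : θ ≤ 1 / 2) (hT : 1 ≤ T) (h1 : 1 ≤ θ * T) (hσ : 0 < σ)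
    (he2 : 2 * e2 ≤ c / 4 * θ ^ 2)
    (hbig : cS (g + k) + ((g + k : ℕ) + 1) * σ * (((g + k : ℕ) : ℝ) * R1) ≤ θ * R1) :
    ∑ l ∈ range (5 * T), |eLP μ X R1 l ω - g * R1| ≤ K1 c * θ * ((g + k : ℕ) * R1) * T ∧
    ∑ l ∈ range (5 * T), |eLP μ Y R1 l ω - k * R1| ≤ K1 c * θ * ((g + k : ℕ) * R1) * T := by
  classical
  have hs := h.sup
  have hR0 : (0 : ℝ) ≤ R1 := Nat.cast_nonneg _
  have hg0 : (0 : ℝ) ≤ g := Nat.cast_nonneg _
  have hk0 : (0 : ℝ) ≤ k := Nat.cast_nonneg _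
  obtain ⟨P, hP⟩ : ∃ P : ℝ, P = ((g + k : ℕ) : ℝ) := ⟨_, rfl⟩
  have hPgk : P = g + k := by rw [hP]; push_cast; ring
  have hP1 : 1 ≤ P := by rw [hP]; exact_mod_cast hp
  have hT' : (1 : ℝ) ≤ T := by exact_mod_cast hT
  rw [← hP]
  rw [← hP] at hbig
  have hθR : θ * R1 ≤ θ * (P * R1) := by
    refine mul_le_mul_of_nonneg_left ?_ hθ.le
    nlinarith
  have hgP : (g : ℝ) * R1 ≤ P * R1 := mul_le_mul_of_nonneg_right (by linarith) hR0
  have hkP : (k : ℝ) * R1 ≤ P * R1 := mul_le_mul_of_nonneg_right (by linarith) hR0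
  have key := num_core' (c / 8) (by positivity) T (P * R1) θ (by positivity) hθ2 h1
    (fun l => eLP μ X R1 l ω - g * R1 + P * R1) (fun l => eLP μ Y R1 l ω - k * R1 + P * R1)
    (BBP T s R1 R' c θ σ μ z X Y ω)
    (fun l => by have := eLP_nonneg hμ X R1 l ω; linarith)
    (fun l => by
      have := eLP_le hμ X R1 l hs
      rw [← hP] at this
      have h2 : 0 ≤ (g : ℝ) * R1 := by positivity
      linarith)
    (fun l => by have := eLP_nonneg hμ Y R1 l ω; linarith)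
    (fun l => by
      have := eLP_le hμ Y R1 l hs
      rw [← hP] at this
      have h2 : 0 ≤ (k : ℝ) * R1 := by positivity
      linarith)
    (by
      refine le_trans ?_ h.slo
      refine Nat.cast_le.2 (card_le_card ?_)
      intro l hl
      rw [mem_filter] at hl ⊢
      refine ⟨hl.1, lt_of_le_of_lt hθR ?_⟩
      have e : eLP μ X R1 l ω - g * R1 + P * R1 - (eLP μ X R1 (l + 1) ω - g * R1 + P * R1) =
          eLP μ X R1 l ω - eLP μ X R1 (l + 1) ω := by ring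
      have := hl.2
      rw [e] at this
      exact this)
    (by
      intro N hN
      have h2 := h.preX N hN
      rw [Finset.sum_add_distrib, Finset.sum_sub_distrib, Finset.sum_const, Finset.sum_const,
        Finset.card_range, nsmul_eq_mul, nsmul_eq_mul]
      have h3 : θ * R1 * T ≤ θ * (P * R1) * T := mul_le_mul_of_nonneg_right hθR (by linarith)
      nlinarith)
    (by
      intro N hN
      have h2 := h.preY N hN
      rw [Finset.sum_add_distrib, Finset.sum_sub_distrib, Finset.sum_const, Finset.sum_const,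
        Finset.card_range, nsmul_eq_mul, nsmul_eq_mul]
      have h3 : θ * R1 * T ≤ θ * (P * R1) * T := mul_le_mul_of_nonneg_right hθR (by linarith)
      nlinarith)
    (by
      intro N hN _ _
      unfold BBP at hN
      refine le_trans ?_ (mem_filter.1 hN).2
      refine Nat.cast_le.2 (card_le_card ?_)
      intro l hl
      rw [mem_filter] at hl ⊢
      refine ⟨hl.1, ?_⟩
      by_contra hcon
      push Not at hcon
      have h2 := stripP (lwP μ Y (N - l) ω) (lwP_nonneg hμ Y (N - l) ω) (lwP_sum hμ Y (N - l) hs)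
        (fun ω' => frP (N - l) (Y ω')) (fun ω' _ => frP_mem _ _) (lwP μ X l ω) (lwP_nonneg hμ X l ω)
        (lwP_sum hμ X l hs) (fun ω' => frP l (X ω')) (fun ω' _ => frP_mem _ _) R1 hσ hcon
      have h3 := hl.2
      rw [← hP] at h2
      have e1 : Hh (lwP μ Y (N - l) ω) (fun ω' => cel R1 (frP (N - l) (Y ω'))) =
        eLP μ Y R1 (N - l) ω := rfl
      have e2 : Hh (lwP μ X l ω) (fun ω' => cel R1 (frP l (X ω'))) = eLP μ X R1 l ω := rfl
      rw [e1, e2] at h2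
      unfold cS at hbig
      have e3 : P * (R1 : ℝ) = g * R1 + k * R1 := by rw [hPgk]; ring
      linarith)
    (BBP_dense h hθ hT he2 (Or.inl rfl))
  have e1 : ∀ l, |eLP μ X R1 l ω - g * R1 + P * R1 - P * R1| = |eLP μ X R1 l ω - g * R1| := by
    intro l
    congr 1
    ring
  have e2 : ∀ l, |eLP μ Y R1 l ω - k * R1 + P * R1 - P * R1| = |eLP μ Y R1 l ω - k * R1| := by
    intro l
    congr 1
    ring
  simp only [e1, e2] at key
  exact key

/-- number of levels with a bad local entropy -/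
theorem ent_cardP {T ρ : ℕ} {K a P : ℝ} {E : ℕ → ℝ} (hρ : 0 < ρ)
    (h : ∑ l ∈ range (5 * T), |E l - a * ρ| ≤ K * (P * ρ) * T) :
    (((range (5 * T)).filter (fun l => E l < (a - 1 / 16) * ρ)).card : ℝ) ≤ 16 * (K * P) * T := by
  have hρ' : (0 : ℝ) < ρ := by exact_mod_cast hρ
  have h2 : ((range (5 * T)).filter (fun l => E l < (a - 1 / 16) * ρ)).card * ((ρ : ℝ) / 16) ≤
      K * (P * ρ) * T := by
    refine le_trans ?_ h
    calc (((range (5 * T)).filter (fun l => E l < (a - 1 / 16) * ρ)).card : ℝ) * ((ρ : ℝ) / 16)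
        = ∑ l ∈ (range (5 * T)).filter (fun l => E l < (a - 1 / 16) * ρ), (ρ : ℝ) / 16 := by
          rw [sum_const, nsmul_eq_mul]
      _ ≤ ∑ l ∈ (range (5 * T)).filter (fun l => E l < (a - 1 / 16) * ρ), |E l - a * ρ| := by
          refine sum_le_sum fun l hl => ?_
          have h3 := (mem_filter.1 hl).2
          rw [abs_of_neg (by linarith)]
          linarith
      _ ≤ _ := sum_le_sum_of_subset_of_nonneg (filter_subset _ _) fun _ _ _ => abs_nonneg _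
  have h3 : (((range (5 * T)).filter (fun l => E l < (a - 1 / 16) * ρ)).card : ℝ) * ((ρ : ℝ) / 16) ≤
      16 * (K * P) * T * ((ρ : ℝ) / 16) := by
    refine h2.trans (le_of_eq ?_)
    ring
  exact le_of_mul_le_mul_right h3 (by positivity)

end

end Pool.Agent.Helper46.WP
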