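import Pool.Agent.Helper61.W.K
import Pool.Agent.Helper97.W.LLN
import Pool.Agent.Helper56.W.DEN
import Pool.Agent.Helper97.WP.PREP
import Pool.Agent.Helper19.WP.SLO
import Pool.Agent.Helper71.WP.CLOP
import Pool.Agent.Helper52.WP.REFP
import Pool.Agent.Helper20.WP.REDP
import Pool.Agent.Helper46.WP.ASMP

/-!
# Theorem W, visible form, all dimensions `g + k`

Assembly of the modules of `Helper46/WP/St.lean`.
-/

set_option autoImplicit false

namespace Pool.Agent.Helper46.WP

/-- **THEOREM W, visible form, dimension `g + k`** -/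
theorem st_VIS : ST_VIS :=
  st_REDP (st_ASMP (Pool.Agent.Helper92.W.st_DEN Pool.Agent.Helper92.W.st_LLN)
    (st_PREP Pool.Agent.Helper92.W.st_LLN) st_SLOP (st_CLOP Pool.Agent.Helper92.W.st_K)
    (st_REFP Pool.Agent.Helper92.W.st_K))

end Pool.Agent.Helper46.WP
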