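import Pool.Agent.Helper46.WP.SelP

/-!
# Lemma W in dimension `g + k`: choice of the parameters
-/

set_option autoImplicit false

namespace Pool.Agent.Helper46.WP

open Finset Matrix Pool.Agent.Helper69.RK Pool.Agent.Helper61.GL Pool.Agent.Helper46.WF
open Pool.Agent.Helper92.W (K1)

noncomputable section

theorem K1_pos {c : ℝ} (hc : 0 < c) : 0 < K1 c := by unfold K1; positivity

theorem params (g k : ℕ) (hp : 1 ≤ g + k) (c : ℝ) (hc : 0 < c) (hc1 : c ≤ 1) :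
    ∃ (θ τ σ ε r w θd : ℝ) (R1 R : ℕ), NumP g k R1 R τ σ r ∧ 0 < θ ∧ 400 * τ ≤ θ ∧
      θd = (32 * (K1 c * ((g + k : ℕ) : ℝ)) + 1) * θ ∧ θd ≤ 1 / 2 ∧ w = 3 * (cU g k R1 * r) ∧
      0 < ε ∧ 3 * θd + ((264 / (c / 8) + 3) * (10 * w + 3 * θd) + 2 * θd) / ε + c / 8 < 3 * (c / 4) ∧
      2 * (ε + w) < 1 ∧
      (g + k : ℕ) * (32 * (2 * (2 * ((g + k : ℕ) : ℝ) * gam (g + k) R1 ^ (g + k) * (1 / 2) ^ R +
        4 * ((g + k : ℕ) : ℝ) ^ 2 * gam (g + k) R1 ^ (g + k) * 32 * r) +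
        (g + k : ℕ) * (2 * (ε + w) * 32))) < 1 / 8 ∧
      cS (g + k) + ((g + k : ℕ) + 1) * σ * (((g + k : ℕ) : ℝ) * R1) ≤ θ * R1 ∧
      800 * ((g + k : ℕ) : ℝ) ^ 2 ≤ θ ^ 3 * R1 := by
  obtain ⟨P, hP⟩ : ∃ P : ℝ, P = ((g + k : ℕ) : ℝ) := ⟨_, rfl⟩
  have hP1 : 1 ≤ P := by rw [hP]; exact_mod_cast hp
  have hP0 : 0 < P := by linarith
  have hK := K1_pos hc
  obtain ⟨ε, hε⟩ : ∃ ε : ℝ, ε = 1 / (2 ^ 20 * P ^ 2) := ⟨_, rfl⟩
  have hε0 : 0 < ε := by rw [hε]; positivity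
  have hε1 : 2 ^ 20 * P ^ 2 * ε = 1 := by rw [hε]; field_simp
  obtain ⟨D, hD⟩ : ∃ D : ℝ, D = 264 / (c / 8) + 3 := ⟨_, rfl⟩
  have hD1 : 1 ≤ D := by
    rw [hD]
    have : 0 < 264 / (c / 8) := by positivity
    linarith
  obtain ⟨δ, hδ⟩ : ∃ δ : ℝ, δ = c * ε / (1000 * D) := ⟨_, rfl⟩
  have hδ0 : 0 < δ := by rw [hδ]; positivity
  have hδ1 : 1000 * D * δ = c * ε := by rw [hδ]; field_simp
  have hεle : ε ≤ 1 / 2 ^ 20 := by
    rw [hε]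
    refine one_div_le_one_div_of_le (by positivity) ?_
    have : 1 ≤ P ^ 2 := one_le_pow₀ hP1
    nlinarith
  have hδε : 1000 * δ ≤ ε := by nlinarith
  have hδle : δ ≤ 1 / 1000 := by nlinarith
  obtain ⟨q, hq⟩ : ∃ q : ℝ, q = 32 * (K1 c * P) + 1 := ⟨_, rfl⟩
  have hq1 : 1 ≤ q := by rw [hq]; have := mul_pos hK hP0; linarith
  obtain ⟨θ, hθ⟩ : ∃ θ : ℝ, θ = δ / q := ⟨_, rfl⟩
  have hθ0 : 0 < θ := by rw [hθ]; positivity
  have hθq : q * θ = δ := by rw [hθ]; field_simp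
  have hθ1 : θ ≤ 1 := by nlinarith
  obtain ⟨τ, hτ⟩ : ∃ τ : ℝ, τ = θ / (6400 * P) := ⟨_, rfl⟩
  have hτ0 : 0 < τ := by rw [hτ]; positivity
  have hτ1 : 6400 * P * τ = θ := by rw [hτ]; field_simp
  obtain ⟨σ, hσ⟩ : ∃ σ : ℝ, σ = τ ^ 2 / P := ⟨_, rfl⟩
  have hσ0 : 0 < σ := by rw [hσ]; positivity
  have hσ1 : P * σ = τ ^ 2 := by rw [hσ]; field_simp
  obtain ⟨R1, hR1⟩ := exists_nat_gt (2 * (1 + |P * Real.logb 2 (6 * P)|) + 2 * |cS (g + k)| / θ +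
    800 * P ^ 2 / θ ^ 3 + 1)
  have hR10 : (0 : ℝ) < R1 := by
    have h1 : 0 ≤ |P * Real.logb 2 (6 * P)| := abs_nonneg _
    have h2 : 0 ≤ 2 * |cS (g + k)| / θ := by positivity
    have h3 : 0 ≤ 800 * P ^ 2 / θ ^ 3 := by positivity
    linarith
  have ha : 2 * (1 + |P * Real.logb 2 (6 * P)|) < R1 := by
    have h2 : 0 ≤ 2 * |cS (g + k)| / θ := by positivity
    have h3 : 0 ≤ 800 * P ^ 2 / θ ^ 3 := by positivity
    linarith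
  have hb : 2 * |cS (g + k)| / θ ≤ R1 := by
    have h1 : 0 ≤ |P * Real.logb 2 (6 * P)| := abs_nonneg _
    have h3 : 0 ≤ 800 * P ^ 2 / θ ^ 3 := by positivity
    linarith
  have hc' : 800 * P ^ 2 / θ ^ 3 ≤ R1 := by
    have h1 : 0 ≤ |P * Real.logb 2 (6 * P)| := abs_nonneg _
    have h2 : 0 ≤ 2 * |cS (g + k)| / θ := by positivity
    linarith
  obtain ⟨Γ, hΓ⟩ : ∃ Γ : ℝ, Γ = gam (g + k) R1 ^ (g + k) := ⟨_, rfl⟩
  have hΓ1 : 1 ≤ Γ := by rw [hΓ]; exact one_le_pow₀ (gam_one _ _)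
  have hΓ0 : 0 < Γ := by linarith
  obtain ⟨r, hr⟩ : ∃ r : ℝ, r = δ / (2 ^ 20 * P ^ 3 * Γ) := ⟨_, rfl⟩
  have hr0 : 0 < r := by rw [hr]; positivity
  have hr1 : 2 ^ 20 * P ^ 3 * Γ * r = δ := by rw [hr]; field_simp
  obtain ⟨w, hw⟩ : ∃ w : ℝ, w = 3 * (8 * P * Γ * r) := ⟨_, rfl⟩
  have hw0 : 0 < w := by rw [hw]; positivity
  have hwδ : w ≤ δ := by
    have h1 : 2 ^ 20 * P ^ 2 * w = 24 * δ := by
      rw [hw, ← hr1]
      ring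
    have h2 : 1 ≤ P ^ 2 := one_le_pow₀ hP1
    nlinarith
  have hcG : 0 < cG (g + k) := by
    unfold cG
    rw [← hP]
    positivity
  obtain ⟨R, hR⟩ := exists_pow_lt_of_lt_one (show (0 : ℝ) <
    min (r / (cG (g + k) * 2 ^ ((g + k) * R1))) (1 / (8192 * P ^ 2 * Γ)) by
      refine lt_min ?_ ?_ <;> positivity) (show (1 / 2 : ℝ) < 1 by norm_num)
  have hRa : cG (g + k) * 2 ^ ((g + k) * R1) * (1 / 2) ^ R ≤ r := by
    have h1 := (hR.trans_le (min_le_left _ _)).le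
    rw [le_div_iff₀ (by positivity)] at h1
    linarith
  have hRb : 8192 * P ^ 2 * Γ * (1 / 2) ^ R ≤ 1 := by
    have h1 := (hR.trans_le (min_le_right _ _)).le
    rw [le_div_iff₀ (by positivity)] at h1
    linarith
  refine ⟨θ, τ, σ, ε, r, w, δ, R1, R, ?_, hθ0, ?_, ?_, ?_, ?_, hε0, ?_, ?_, ?_, ?_, ?_⟩
  · refine ⟨hp, by exact_mod_cast hR10, hτ0, ?_, hσ0, ?_, hr0, hRa, ?_⟩
    · rw [← hP]
      nlinarith
    · rw [← hP, hσ1]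
    · rw [← hP]
      have := le_abs_self (P * Real.logb 2 (6 * P))
      linarith
  · nlinarith
  · rw [← hP, ← hq, hθq]
  · linarith
  · rw [hw]
    unfold cU
    rw [← hP, ← hΓ]
  · rw [← hD]
    have h1 : (D * (10 * w + 3 * δ) + 2 * δ) / ε ≤ 15 * c / 1000 := by
      rw [div_le_iff₀ hε0]
      have h2 : D * (10 * w + 3 * δ) + 2 * δ ≤ 15 * (D * δ) := by nlinarith
      nlinarith
    nlinarith
  · nlinarith
  · rw [← hP, ← hΓ]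
    have h1 : P * (32 * (2 * (2 * P * Γ * (1 / 2) ^ R + 4 * P ^ 2 * Γ * 32 * r) +
        P * (2 * (ε + w) * 32))) = (8192 * P ^ 2 * Γ * (1 / 2) ^ R) / 64 +
        (2 ^ 20 * P ^ 3 * Γ * r) / 128 + 2048 * (P ^ 2 * ε) + 2048 * P ^ 2 * w := by ring
    rw [h1, hr1]
    have h2 : P ^ 2 * w ≤ P ^ 2 * ε := mul_le_mul_of_nonneg_left (by linarith) (by positivity)
    nlinarith
  · rw [← hP]
    have h1 : (P + 1) * σ * (P * R1) = (P + 1) * τ ^ 2 * R1 := by rw [← hσ1]; ring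
    rw [h1]
    have h2 : (P + 1) * τ ^ 2 ≤ θ / 2 := by
      have h3 : (P + 1) * τ ^ 2 ≤ 2 * P * τ ^ 2 := by nlinarith [sq_nonneg τ]
      have h4 : 2 * P * τ ^ 2 = (6400 * P * τ) * τ / 3200 := by ring
      rw [h4, hτ1] at h3
      have h5 : τ ≤ 1 := by nlinarith
      nlinarith
    have h3 : |cS (g + k)| ≤ θ / 2 * R1 := by
      rw [div_le_iff₀ hθ0] at hb
      linarith
    have h4 := le_abs_self (cS (g + k))
    nlinarith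
  · rw [← hP]
    rw [div_le_iff₀ (by positivity)] at hc'
    linarith

end

end Pool.Agent.Helper46.WP
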