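import Pool.Agent.Helper46.WP.Det2P

/-!
# Lemma W in dimension `g + k`: probabilities of the bad events of a path
-/

set_option autoImplicit false

namespace Pool.Agent.Helper46.WP

open Finset Matrix Pool.Agent.Helper69.RK Pool.Agent.Helper61.GL Pool.Agent.Helper46.WF
open Pool.Agent.Helper92.W (fl srp DL dense_tot K1 card_reflect card_restrict card_large)

noncomputable section

variable {Ω : Type} [Fintype Ω]

/-- Markov's inequality for the number of large values -/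
theorem cnt_markov {ι : Type} (μ : Ω → ℝ) (hμ : ∀ ω, 0 ≤ μ ω) (S : Finset ι) (f : Ω → ι → ℝ)
    (hf : ∀ ω, ∀ l ∈ S, 0 ≤ f ω l) {a b m : ℝ} (ha : 0 < a) (hb : 0 < b)
    (hm : ∑ ω, μ ω * ∑ l ∈ S, f ω l ≤ m) (N : Ω → ℝ)
    (hN : ∀ ω, μ ω ≠ 0 → N ω * a ≤ ∑ l ∈ S, f ω l) : Pw μ (fun ω => b < N ω) ≤ m / (b * a) := by
  refine (Pw_mono μ hμ (B := fun ω => b * a < ∑ l ∈ S, f ω l) fun ω h0 h => ?_).trans
    (Pw_markov μ hμ (fun ω => ∑ l ∈ S, f ω l) (fun ω _ => sum_nonneg (hf ω)) (mul_pos hb ha) hm)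
  exact lt_of_lt_of_le (mul_lt_mul_of_pos_right h ha) (hN ω h0)

theorem card_mul_le {ι : Type} (S : Finset ι) (g : ι → ℝ) (P : ι → Prop) [DecidablePred P]
    (hg : ∀ l ∈ S, 0 ≤ g l) {a : ℝ} (h : ∀ l ∈ S, P l → a ≤ g l) :
    ((S.filter P).card : ℝ) * a ≤ ∑ l ∈ S, g l := by
  classical
  calc ((S.filter P).card : ℝ) * a = ∑ l ∈ S.filter P, a := by rw [sum_const, nsmul_eq_mul]
    _ ≤ ∑ l ∈ S.filter P, g l := sum_le_sum fun l hl => h l (mem_filter.1 hl).1 (mem_filter.1 hl).2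
    _ ≤ ∑ l ∈ S, g l := sum_le_sum_of_subset_of_nonneg (filter_subset _ _) fun l hl _ => hg l hl

/-! ### slow variation -/

theorem slo_bad {p : ℕ} (hS : ST_SLOP) (μ : Ω → ℝ) (hμ : ∀ ω, 0 ≤ μ ω) (hm : mass μ = 1)
    (X : Ω → Fin p → ℝ) (R1 T : ℕ) {θ : ℝ} (hθ : 0 < θ) (hR1 : 0 < R1) (hT : 0 < T) :
    Pw μ (fun ω => θ * T < (((range (4 * T)).filter (fun l =>
      θ * R1 < |eLP μ X R1 l ω - eLP μ X R1 (l + 1) ω|)).card : ℝ)) ≤
      ((p : ℝ) ^ 2 * R1 ^ 2 + 2 * p ^ 2 * R1 * ((4 * T : ℕ) : ℝ)) / (θ * T * (θ * R1) ^ 2) := by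
  classical
  have hR1' : (0 : ℝ) < R1 := by exact_mod_cast hR1
  have hT' : (0 : ℝ) < T := by exact_mod_cast hT
  have h1 := hS p Ω μ X hμ hm R1 (4 * T)
  refine cnt_markov μ hμ (range (4 * T)) (fun ω l => (eLP μ X R1 (l + 1) ω - eLP μ X R1 l ω) ^ 2)
    (fun _ _ _ => sq_nonneg _) (by positivity) (by positivity) ?_ _ ?_
  · refine le_trans (le_of_eq ?_) h1
    simp only [Finset.mul_sum]
    rw [Finset.sum_comm]
  · intro ω _
    refine card_mul_le _ _ _ (fun _ _ => sq_nonneg _) ?_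
    intro l _ hl
    rw [← sq_abs (eLP μ X R1 (l + 1) ω - eLP μ X R1 l ω), abs_sub_comm]
    exact pow_le_pow_left₀ (by positivity) hl.le 2

/-! ### antidiagonals -/

theorem antidiag_le (M n : ℕ) (hM : M ≤ n + 1) (G : ℕ → ℕ → ℝ) (hG : ∀ l j, 0 ≤ G l j) :
    ∑ N ∈ range M, ∑ l ∈ range (N + 1), G l (N - l) ≤
      ∑ l ∈ range (n + 1), ∑ j ∈ range (n + 1), G l j := by
  rw [Finset.sum_comm' (t' := range M) (s' := fun l => Ico l M) (by
    intro N l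
    simp only [mem_range, mem_Ico]
    omega)]
  refine le_trans (sum_le_sum (g := fun l => ∑ j ∈ range (n + 1), G l j) fun l hl => ?_) ?_
  · rw [Finset.sum_Ico_eq_sum_range]
    have e : ∀ j ∈ range (M - l), G l (l + j - l) = G l j := by
      intro j _
      rw [Nat.add_sub_cancel_left]
    rw [Finset.sum_congr rfl e]
    refine sum_le_sum_of_subset_of_nonneg ?_ fun j _ _ => hG l j
    intro j hj
    rw [mem_range] at hj ⊢
    omega
  · refine sum_le_sum_of_subset_of_nonneg ?_ fun l _ _ => sum_nonneg fun j _ => hG l j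
    intro j hj
    rw [mem_range] at hj ⊢
    omega

open Classical in
theorem clo_bad {g k : ℕ} {e : ℝ} {n s R' : ℕ} {c : ℝ} (μ : Ω → ℝ) (hμ : ∀ ω, 0 ≤ μ ω)
    (z : Ω → ℝ) (X Y : Ω → Fin (g + k) → ℝ) (ρ T : ℕ) {σ b : ℝ} (hσ : 0 < σ) (hb : 0 < b)
    (hT : 5 * T + s + (ρ + 1) ≤ n)
    (h : ∑ ω, μ ω * ∑ l ∈ range (n + 1), ∑ j ∈ range (n + 1),
      (if l + j + s + (ρ + 1) ≤ n ∧ DL μ z c R' (l + j + s + (ρ + 1)) ω then slP μ Y X j l ρ ω else 0) ≤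
        e * (n : ℝ) ^ 2) :
    Pw μ (fun ω => b < ∑ N ∈ (range (5 * T)).filter (fun N => DL μ z c R' (N + s + (ρ + 1)) ω),
      (((range (N + 1)).filter (fun l => σ ^ 2 < slP μ Y X (N - l) l ρ ω)).card : ℝ)) ≤
      e * (n : ℝ) ^ 2 / (b * σ ^ 2) := by
  have hG : ∀ ω l j, 0 ≤ (if l + j + s + (ρ + 1) ≤ n ∧ DL μ z c R' (l + j + s + (ρ + 1)) ω then
      slP μ Y X j l ρ ω else 0) := by
    intro ω l j
    split_ifs
    · exact slP_nonneg hμ Y X j l ρ ω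
    · exact le_rfl
  refine cnt_markov μ hμ (range (n + 1)) (fun ω l => ∑ j ∈ range (n + 1),
    (if l + j + s + (ρ + 1) ≤ n ∧ DL μ z c R' (l + j + s + (ρ + 1)) ω then slP μ Y X j l ρ ω else 0))
    (fun ω l _ => sum_nonneg fun j _ => hG ω l j) (by positivity) hb h _ ?_
  intro ω _
  refine le_trans ?_ (antidiag_le (5 * T) n (by omega) (fun l j =>
    if l + j + s + (ρ + 1) ≤ n ∧ DL μ z c R' (l + j + s + (ρ + 1)) ω then slP μ Y X j l ρ ω else 0)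
    (hG ω))
  rw [Finset.sum_mul, Finset.sum_filter]
  refine sum_le_sum fun N hN => ?_
  rw [mem_range] at hN
  split_ifs with hD
  · refine card_mul_le _ _ _ (fun l _ => hG ω l (N - l)) ?_
    intro l hl hσl
    rw [mem_range] at hl
    have e1 : l + (N - l) + s + (ρ + 1) = N + s + (ρ + 1) := by omega
    rw [e1, if_pos ⟨by omega, hD⟩]
    exact hσl.le
  · exact sum_nonneg fun l _ => hG ω l (N - l)

/-! ### references -/

open Classical in
theorem ref_bad {p : ℕ} {e : ℝ} {n s R' : ℕ} {c : ℝ} (μ : Ω → ℝ) (hμ : ∀ ω, 0 ≤ μ ω) (z : Ω → ℝ)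
    (X Y : Ω → Fin p → ℝ) (ρ T : ℕ) {τ b : ℝ} (hτ : 0 < τ) (hb : 0 < b)
    (hT : 5 * T + s + (ρ + 1) ≤ n)
    (h : ∑ ω, μ ω * ∑ j ∈ range (n + 1),
      (if j + s + (ρ + 1) ≤ n ∧ DL μ z c R' (j + s + (ρ + 1)) ω then nlP μ Y j ρ (X ω) ω else 0) ≤
        e * n) :
    Pw μ (fun ω => b < (((range (5 * T)).filter (fun j => DL μ z c R' (j + s + (ρ + 1)) ω ∧
      τ < nlP μ Y j ρ (X ω) ω)).card : ℝ)) ≤ e * n / (b * τ) := by
  have hG : ∀ ω j, 0 ≤ (if j + s + (ρ + 1) ≤ n ∧ DL μ z c R' (j + s + (ρ + 1)) ω then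
      nlP μ Y j ρ (X ω) ω else 0) := by
    intro ω j
    split_ifs
    · exact nlP_nonneg hμ Y j ρ (X ω) ω
    · exact le_rfl
  refine cnt_markov μ hμ (range (n + 1)) (fun ω j =>
    (if j + s + (ρ + 1) ≤ n ∧ DL μ z c R' (j + s + (ρ + 1)) ω then nlP μ Y j ρ (X ω) ω else 0))
    (fun ω j _ => hG ω j) hτ hb h _ ?_
  intro ω _
  have h1 : ∑ j ∈ range (5 * T), (if j + s + (ρ + 1) ≤ n ∧ DL μ z c R' (j + s + (ρ + 1)) ω then
      nlP μ Y j ρ (X ω) ω else 0) ≤ ∑ j ∈ range (n + 1),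
      (if j + s + (ρ + 1) ≤ n ∧ DL μ z c R' (j + s + (ρ + 1)) ω then nlP μ Y j ρ (X ω) ω else 0) := by
    refine sum_le_sum_of_subset_of_nonneg ?_ fun j _ _ => hG ω j
    intro j hj
    rw [mem_range] at hj ⊢
    omega
  refine le_trans ?_ h1
  refine card_mul_le _ _ _ (fun j _ => hG ω j) ?_
  rintro j hj ⟨hD, hτj⟩
  rw [mem_range] at hj
  rw [if_pos ⟨by omega, hD⟩]
  exact hτj.le

/-! ### inheritance -/

theorem inh_one {p : ℕ} (μ : Ω → ℝ) (hμ : ∀ ω, 0 ≤ μ ω) (hm : mass μ = 1)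
    (X : Ω → Fin p → ℝ) (k l : ℕ) {r τ : ℝ} (hτ : 0 < τ) :
    Pw μ (fun ω => StrP (lwP μ X l ω) (fun ω' => frP l (X ω'))
        (hatP k (lwP μ X l ω) (fun ω' => frP l (X ω')) r (τ ^ 2)) r (τ ^ 2) ∧
      ¬ StrP (lwP μ X (l + 1) ω) (fun ω' => frP (l + 1) (X ω'))
        (hatP k (lwP μ X l ω) (fun ω' => frP l (X ω')) r (τ ^ 2)) (2 * r) τ) ≤ τ := by
  classical
  set A : Ω → Prop := fun ω => StrP (lwP μ X l ω) (fun ω' => frP l (X ω'))
        (hatP k (lwP μ X l ω) (fun ω' => frP l (X ω')) r (τ ^ 2)) r (τ ^ 2) ∧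
      ¬ StrP (lwP μ X (l + 1) ω) (fun ω' => frP (l + 1) (X ω'))
        (hatP k (lwP μ X l ω) (fun ω' => frP l (X ω')) r (τ ^ 2)) (2 * r) τ with hA
  have hsum : ∀ (v : Ω → ℝ), Pw v A = ∑ ω, v ω * (if A ω then (1 : ℝ) else 0) := by
    intro v
    unfold Pw
    refine Finset.sum_congr rfl fun ω _ => ?_
    by_cases h : A ω <;> simp [h]
  rw [hsum μ, ← cw_expect μ hμ (fun ω' => cel l (X ω'))]
  have h1 : ∀ ω, μ ω ≠ 0 → ∑ ω', cw μ (fun ω' => cel l (X ω')) ω ω' * (if A ω' then (1 : ℝ) else 0) ≤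
      τ := by
    intro ω h0
    have h2 : ∑ ω', cw μ (fun ω' => cel l (X ω')) ω ω' * (if A ω' then (1 : ℝ) else 0) =
        Pw (lwP μ X l ω) A := (hsum (lwP μ X l ω)).symm
    rw [h2]
    by_cases hst : StrP (lwP μ X l ω) (fun ω' => frP l (X ω'))
        (hatP k (lwP μ X l ω) (fun ω' => frP l (X ω')) r (τ ^ 2)) r (τ ^ 2)
    · refine (Pw_mono _ (lwP_nonneg hμ X l ω) ?_).trans (inhP μ X hμ l ω h0
        (hatP k (lwP μ X l ω) (fun ω' => frP l (X ω')) r (τ ^ 2)) (r := r) (e := τ) hτ hst)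
      intro ω' h3 h4
      have h5 : cel l (X ω') = cel l (X ω) := (cw_ne_zero μ _ h3).1
      have h6 : lwP μ X l ω' = lwP μ X l ω := by
        funext x
        exact cw_congr μ (fun ω' => cel l (X ω')) h5 x
      have h7 := h4.2
      rw [h6] at h7
      exact h7
    · have h3 : Pw (lwP μ X l ω) A ≤ Pw (lwP μ X l ω) (fun _ => False) := by
        refine Pw_mono _ (lwP_nonneg hμ X l ω) ?_
        intro ω' h3 h4
        have h5 : cel l (X ω') = cel l (X ω) := (cw_ne_zero μ _ h3).1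
        have h6 : lwP μ X l ω' = lwP μ X l ω := by
          funext x
          exact cw_congr μ (fun ω' => cel l (X ω')) h5 x
        have h7 := h4.1
        rw [h6] at h7
        exact hst h7
      refine h3.trans ?_
      unfold Pw
      simp [hτ.le]
  calc ∑ ω, μ ω * ∑ ω', cw μ (fun ω' => cel l (X ω')) ω ω' * (if A ω' then (1 : ℝ) else 0)
      ≤ ∑ ω, μ ω * τ := by
        refine sum_le_sum fun ω _ => ?_
        by_cases h0 : μ ω = 0
        · rw [h0, zero_mul, zero_mul]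
        · exact mul_le_mul_of_nonneg_left (h1 ω h0) (hμ ω)
    _ = τ := by
        rw [← Finset.sum_mul]
        have : ∑ ω, μ ω = 1 := hm
        rw [this, one_mul]

open Classical in
theorem inh_bad {p : ℕ} (μ : Ω → ℝ) (hμ : ∀ ω, 0 ≤ μ ω) (hm : mass μ = 1)
    (X : Ω → Fin p → ℝ) (k T : ℕ) {r τ b : ℝ} (hτ : 0 < τ) (hb : 0 < b) :
    Pw μ (fun ω => b < (((range (4 * T)).filter (fun l =>
      StrP (lwP μ X l ω) (fun ω' => frP l (X ω'))
        (hatP k (lwP μ X l ω) (fun ω' => frP l (X ω')) r (τ ^ 2)) r (τ ^ 2) ∧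
      ¬ StrP (lwP μ X (l + 1) ω) (fun ω' => frP (l + 1) (X ω'))
        (hatP k (lwP μ X l ω) (fun ω' => frP l (X ω')) r (τ ^ 2)) (2 * r) τ)).card : ℝ)) ≤
      ((4 * T : ℕ) : ℝ) * τ / (b * 1) := by
  refine cnt_markov μ hμ (range (4 * T)) (fun ω l => if (StrP (lwP μ X l ω) (fun ω' => frP l (X ω'))
        (hatP k (lwP μ X l ω) (fun ω' => frP l (X ω')) r (τ ^ 2)) r (τ ^ 2) ∧
      ¬ StrP (lwP μ X (l + 1) ω) (fun ω' => frP (l + 1) (X ω'))
        (hatP k (lwP μ X l ω) (fun ω' => frP l (X ω')) r (τ ^ 2)) (2 * r) τ) then (1 : ℝ) else 0)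
    (fun ω l _ => by split_ifs <;> norm_num) one_pos hb ?_ _ ?_
  · simp only [Finset.mul_sum]
    rw [Finset.sum_comm]
    refine (sum_le_sum (g := fun _ => τ) fun l _ => ?_).trans ?_
    · refine le_trans (le_of_eq ?_) (inh_one μ hμ hm X k l (r := r) hτ)
      unfold Pw
      refine Finset.sum_congr rfl fun ω _ => ?_
      split_ifs <;> simp
    · rw [sum_const, card_range, nsmul_eq_mul]
  · intro ω _
    refine card_mul_le _ _ _ (fun l _ => by split_ifs <;> norm_num) ?_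
    intro l _ hl
    rw [if_pos hl]

end

end Pool.Agent.Helper46.WP
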