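import Pool.Agent.Helper92.W.St
import Pool.Agent.Helper46.WF.InhP

/-!
# Lemma W in dimension `g + k`: definitions and statements

`V = (T, A)`, `V' = (C, T')` in `R^(g + k)`, pairing `dp V V'`; `T` (the first `g` coordinates of `X`) and
`T'` (the last `k` coordinates of `Y`) are real. Generalises Pool/Agent/Helper92/W/St.lean
(`g = k = 1`); `fl`, `srp`, `de`, `DL`, `ST_K`, `ST_LLN`, `ST_DEN` are used from there.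
-/

set_option autoImplicit false

namespace Pool.Agent.Helper46.WP

open Finset Pool.Agent.Helper69.RK Pool.Agent.Helper61.GL Pool.Agent.Helper46.WF
open Pool.Agent.Helper92.W (fl srp DL)

noncomputable section

section defs

variable {Ω : Type} [Fintype Ω] {p : ℕ}

/-- entropy of the next `ρ` digits of `X` in its cell of level `l` -/
def eLP (μ : Ω → ℝ) (X : Ω → Fin p → ℝ) (ρ l : ℕ) (ω : Ω) : ℝ :=
  Hh (lwP μ X l ω) (fun ω' => cel ρ (frP l (X ω')))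

/-- non-atomicity of `dp Y U` in the cell of level `j` of `Y`, precision `2 ^ (-ρ)` -/
def nlP (μ : Ω → ℝ) (Y : Ω → Fin p → ℝ) (j ρ : ℕ) (U : Fin p → ℝ) (ω : Ω) : ℝ :=
  naP (lwP μ Y j ω) (fun ω' => frP j (Y ω')) ((1 / 2) ^ ρ) U

/-- average non-atomicity for differences of two independent elements of the cell of `X` -/
def slP (μ : Ω → ℝ) (Y X : Ω → Fin p → ℝ) (j l ρ : ℕ) (ω : Ω) : ℝ :=
  nasP (lwP μ Y j ω) (fun ω' => frP j (Y ω')) (lwP μ X l ω) (fun ω' => frP l (X ω')) ρ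

/-- the digits of the coordinates `e i` -/
def dgs {g : ℕ} (n : ℕ) (e : Fin g → Fin p) (x : Fin p → ℝ) : Fin g → ℤ := fun i => fl n (x (e i))

/-- the visible configuration (no base) -/
structure CfgP (g k n s : ℕ) (η c : ℝ) (μ : Ω → ℝ) (z : Ω → ℝ) (X Y : Ω → Fin (g + k) → ℝ) :
    Prop where
  nn : ∀ ω, 0 ≤ μ ω
  ms : mass μ = 1
  zb : ∀ ω, 0 ≤ z ω ∧ z ω < 1
  xb : ∀ ω i, |X ω i| ≤ 32
  yb : ∀ ω i, |Y ω i| ≤ 32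
  ang : ∀ ω, μ ω ≠ 0 → 1 / 8 ≤ |dp (X ω) (Y ω)|
  i1 : Hh μ (fun ω => fl n (z ω)) ≤ CH μ (fun ω => fl n (z ω)) (fun ω => (X ω, Y ω)) + η * n
  i2 : Hh μ (fun ω => fl n (z ω + dp (X ω) (Y ω) / 2 ^ s)) ≤
    CH μ (fun ω => fl n (z ω + dp (X ω) (Y ω) / 2 ^ s)) (fun ω => (X ω, Y ω)) + η * n
  i3 : Hh μ X ≤ CH μ X Y + η * n
  tx : ((g : ℝ) - η) * n ≤ Hh μ (fun ω => dgs n (Fin.castAdd k : Fin g → Fin (g + k)) (X ω))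
  ty : ((k : ℝ) - η) * n ≤ Hh μ (fun ω => dgs n (Fin.natAdd g : Fin k → Fin (g + k)) (Y ω))
  un : Pw μ (fun ω => ∃ a b : ℕ, a ≤ b ∧ b ≤ n ∧ (1 - c) * ((b : ℝ) - a) + η * n <
    srp μ (fun ω' => fl b (z ω')) (fun ω' => fl a (z ω')) ω) ≤ η

/-- block over a base `F`; the shift `s` is a function of the base -/
structure VBlk (g k n : ℕ) (η c : ℝ) {φ : Type} (μ : Ω → ℝ) (F : Ω → φ) (s : φ → ℕ) (z : Ω → ℝ)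
    (X Y : Ω → Fin (g + k) → ℝ) : Prop where
  nn : ∀ ω, 0 ≤ μ ω
  ms : mass μ = 1
  zb : ∀ ω, 0 ≤ z ω ∧ z ω < 1
  xb : ∀ ω i, |X ω i| ≤ 32
  yb : ∀ ω i, |Y ω i| ≤ 32
  i1 : CH μ (fun ω => fl n (z ω)) F ≤ CH μ (fun ω => fl n (z ω)) (fun ω => (X ω, Y ω, F ω)) + η * n
  i2 : CH μ (fun ω => fl n (z ω + dp (X ω) (Y ω) / 2 ^ s (F ω))) F ≤
    CH μ (fun ω => fl n (z ω + dp (X ω) (Y ω) / 2 ^ s (F ω))) (fun ω => (X ω, Y ω, F ω)) + η * n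
  i3 : CH μ X F ≤ CH μ X (fun ω => (Y ω, F ω)) + η * n
  tx : ((g : ℝ) - η) * n ≤ CH μ (fun ω => dgs n (Fin.castAdd k : Fin g → Fin (g + k)) (X ω)) F
  ty : ((k : ℝ) - η) * n ≤ CH μ (fun ω => dgs n (Fin.natAdd g : Fin k → Fin (g + k)) (Y ω)) F
  un : Pw μ (fun ω => ∃ a b : ℕ, a ≤ b ∧ b ≤ n ∧ (1 - c) * ((b : ℝ) - a) + η * n <
    srp μ (fun ω' => fl b (z ω')) (fun ω' => (fl a (z ω'), F ω')) ω) ≤ η

end defs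

/-! ### the theorem -/

/-- **THEOREM W, visible form, dimension `g + k`** -/
def ST_VIS : Prop := ∀ (g k : ℕ) (c κ ε : ℝ), 0 < c → c ≤ 1 → 0 < κ → κ < 1 → 0 < ε →
  ∃ η : ℝ, 0 < η ∧ ∃ n0 : ℕ, ∀ n : ℕ, n0 ≤ n → ∀ (Ω φ : Type) [Fintype Ω] (μ : Ω → ℝ) (F : Ω → φ)
    (s : φ → ℕ) (z : Ω → ℝ) (X Y : Ω → Fin (g + k) → ℝ), VBlk g k n η c μ F s z X Y →
      (∀ ω, (s (F ω) : ℝ) ≤ κ * n) → Pw μ (fun ω => 1 / 8 ≤ |dp (X ω) (Y ω)|) ≤ ε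

/-- there is no visible configuration -/
def ST_CFGP : Prop := ∀ (g k : ℕ) (c κ : ℝ), 0 < c → c ≤ 1 → 0 < κ → κ < 1 →
  ∃ η : ℝ, 0 < η ∧ ∃ n0 : ℕ, ∀ n s : ℕ, n0 ≤ n → (s : ℝ) ≤ κ * n → ∀ (Ω : Type) [Fintype Ω] (μ : Ω → ℝ)
    (z : Ω → ℝ) (X Y : Ω → Fin (g + k) → ℝ), ¬ CfgP g k n s η c μ z X Y

/-! ### pathwise statements about one variable -/

/-- PREFIX SUMS of the local entropies, along most paths -/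
def ST_PREP : Prop := ∀ (p g : ℕ) (ε : ℝ), 0 < ε → ∀ ρ : ℕ, 1 ≤ ρ → ∃ η : ℝ, 0 < η ∧ ∃ n0 : ℕ,
  ∀ n : ℕ, n0 ≤ n → ∀ (Ω : Type) [Fintype Ω] (μ : Ω → ℝ) (X : Ω → Fin p → ℝ) (e : Fin g → Fin p),
    (∀ ω, 0 ≤ μ ω) → mass μ = 1 → (∀ ω i, |X ω i| ≤ 32) →
    ((g : ℝ) - η) * n ≤ Hh μ (fun ω => dgs n e (X ω)) →
    Pw μ (fun ω => ∃ N : ℕ, N ≤ n ∧ ∑ l ∈ range N, eLP μ X ρ l ω < g * ρ * N - ε * n) ≤ ε

/-- SLOW VARIATION of the local entropies, in mean square -/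
def ST_SLOP : Prop := ∀ (p : ℕ) (Ω : Type) [Fintype Ω] (μ : Ω → ℝ) (X : Ω → Fin p → ℝ),
    (∀ ω, 0 ≤ μ ω) → mass μ = 1 → ∀ ρ M : ℕ,
    ∑ l ∈ range M, ∑ ω, μ ω * (eLP μ X ρ (l + 1) ω - eLP μ X ρ l ω) ^ 2 ≤
      (p : ℝ) ^ 2 * ρ ^ 2 + 2 * p ^ 2 * ρ * M

/-! ### atomicity along the paths of a configuration -/

open Classical in
/-- pairs of cells -/
def ST_CLOP : Prop := ∀ (g k : ℕ) (c e : ℝ), 0 < c → c ≤ 1 → 0 < e → ∀ ρ : ℕ, ∃ R0 : ℕ, ∀ R : ℕ, R0 ≤ R →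
  ∃ η : ℝ, 0 < η ∧ ∃ n0 : ℕ, ∀ n s : ℕ, n0 ≤ n → ∀ (Ω : Type) [Fintype Ω] (μ : Ω → ℝ)
    (z : Ω → ℝ) (X Y : Ω → Fin (g + k) → ℝ), CfgP g k n s η c μ z X Y →
    ∑ ω, μ ω * ∑ l ∈ range (n + 1), ∑ j ∈ range (n + 1),
      (if l + j + s + (ρ + 1) ≤ n ∧ DL μ z c R (l + j + s + (ρ + 1)) ω then slP μ Y X j l ρ ω else 0) ≤
        e * (n : ℝ) ^ 2

open Classical in
/-- the reference vectors at scale `0` -/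
def ST_REFP : Prop := ∀ (g k : ℕ) (c e : ℝ), 0 < c → c ≤ 1 → 0 < e → ∀ ρ : ℕ, ∃ R0 : ℕ, ∀ R : ℕ, R0 ≤ R →
  ∃ η : ℝ, 0 < η ∧ ∃ n0 : ℕ, ∀ n s : ℕ, n0 ≤ n → ∀ (Ω : Type) [Fintype Ω] (μ : Ω → ℝ)
    (z : Ω → ℝ) (X Y : Ω → Fin (g + k) → ℝ), CfgP g k n s η c μ z X Y →
    (∑ ω, μ ω * ∑ j ∈ range (n + 1),
      (if j + s + (ρ + 1) ≤ n ∧ DL μ z c R (j + s + (ρ + 1)) ω then nlP μ Y j ρ (X ω) ω else 0) ≤ e * n) ∧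
    (∑ ω, μ ω * ∑ l ∈ range (n + 1),
      (if l + s + (ρ + 1) ≤ n ∧ DL μ z c R (l + s + (ρ + 1)) ω then nlP μ X l ρ (Y ω) ω else 0) ≤ e * n)

/-! ### assembly; the pair-of-cells lemmas dirP, uniP, inhP, endP are in Helper46/WF/{PairP,InhP} -/

def ST_ASMP : Prop := Pool.Agent.Helper92.W.ST_DEN → ST_PREP → ST_SLOP → ST_CLOP → ST_REFP → ST_CFGP

def ST_REDP : Prop := ST_CFGP → ST_VIS

end

end Pool.Agent.Helper46.WP
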